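import Pool.Agent.WK3.Defs
import Pool.Agent.WK2.Poly
import Pool.Agent.Helper78_E.Neg2a
import Pool.Agent.Helper67_WKS.Syn
import Pool.Agent.Helper34_E.Thin

/-!
# MP_7d2497_an, squad WK5: perfect sets, for weights tending to infinity less than linearly
-/

set_option autoImplicit false

namespace Pool.Agent.WK5

open MeasureTheory Filter Topology Complex
open Pool.Agent.H78E Pool.Agent.WKS

noncomputable section

/-- The weight `1 + |t|`. -/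
def w1 (t : ℝ) : ℝ := 1 + |t|

theorem w1_eq (t : ℝ) : w1 t = Pool.Agent.WK2.wp 1 1 t := by
  unfold w1 Pool.Agent.WK2.wp
  rw [Real.rpow_one, Real.rpow_one]
  rcases le_total 0 t with h | h
  · rw [abs_of_nonneg h, max_eq_left h, max_eq_right (by linarith)]
    ring
  · rw [abs_of_nonpos h, max_eq_right h, max_eq_left (by linarith)]
    ring

theorem isWeight_w1 : IsWeight w1 := by
  have h : w1 = Pool.Agent.WK2.wp 1 1 := funext w1_eq
  rw [h]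
  exact Pool.Agent.WK2.isWeight_wp zero_le_one zero_le_one

/-- The contraction `e / (e + i (z - x))` on the weighted space. -/
def VW (x e : ℝ) : Y →L[ℂ] Y :=
  (e : ℂ) • (WS isWeight_w1).En ((e : ℂ) - Complex.I * (x : ℂ))

/-- Closeness properties of the factors, in a normed ring. -/
def FClose {R : Type} [NormedRing R] (A : ℝ → ℝ → ℝ → R) : Prop :=
  ∀ x m e : ℝ, 0 < m → 0 < e →
    (∀ η : ℝ, 0 < η → ∃ e0 : ℝ, 0 < e0 ∧ ∀ e' : ℝ, 0 < e' → e' ≤ e0 →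
      ‖A x m e - (A x (m / 2) e) * (A x (m / 2) e')‖ ≤ η) ∧
    (∀ η : ℝ, 0 < η → ∃ δ : ℝ, 0 < δ ∧ ∀ x' : ℝ, |x' - x| ≤ δ → ‖A x' m e - A x m e‖ ≤ η)

/-- The product of the factors of level `n`. -/
def Mo {R : Type} [NormedRing R] (A : ℝ → ℝ → ℝ → R) (n : ℕ) (x e : ℕ → ℝ) : R :=
  ((Pool.Agent.H78E.H34.lev n).map fun i => A (x i) ((1 / 2 : ℝ) ^ n) (e i)).prod

/-- The data of the thin construction in a normed ring. -/
structure ThinR {R : Type} [NormedRing R] (A : ℝ → ℝ → ℝ → R) (K : Set ℝ) (P : ℝ → ℝ) where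
  x : ℕ → ℝ
  e : ℕ → ℝ
  y : ℕ → ℝ
  M : R
  x_mem : ∀ i, x i ∈ K
  x_near : ∀ i, |x i - x 0| ≤ 1
  e_pos : ∀ i, 0 < e i
  e_sum : Summable e
  e_le : ∑' i, e i ≤ 2
  sep : ∀ N : ℕ, ∃ ρ : ℝ, 0 < ρ ∧ ∀ n : ℕ, N ≤ n → ∀ u : ℝ,
    ((Finset.range (2 ^ n)).filter (fun i => |x i - u| < ρ)).card ≤ 2 ^ (n - N)
  y_pos : ∀ N, 0 < y N
  y_le : ∀ N : ℕ, (N : ℝ) ≤ (1 / 2 : ℝ) ^ N / (4 * y N)
  P_le : ∀ N : ℕ, P (y N) ≤ Real.exp ((1 / 2 : ℝ) ^ N / (4 * y N))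
  y_card : ∀ N n : ℕ, N ≤ n →
    2 ^ (n - N) ≤ ((Finset.range (2 ^ n)).filter (fun i => |x i - x 0| ≤ y N)).card
  lim : Tendsto (fun n => Mo A n x e) atTop (𝓝 M)

end

end Pool.Agent.WK5
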