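import Pool.Agent.WK5.Fbw
import Pool.Agent.Helper98_E.Star

/-!
# MP_7d2497_an, squad WK5: the theorem on perfect sets
-/

set_option autoImplicit false

namespace Pool.Agent.WK5

open MeasureTheory Filter Topology Complex
open Pool.Agent.H78E Pool.Agent.WKS
open Pool.Agent.WK3 (QC Lin)

noncomputable section

theorem x5 (hW : WthStmt) (hF : FbwStmt) (hG : GrwStmt) : X5Stmt := by
  intro φ hφ hQ hNL hs L hE K0 hK0L hK0
  by_contra hunc
  have hL : LapuStmt := H85.lapu
  have hR : ResidStmt := H13.resid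
  have hA : AlgStmt := H85.alg
  have hD : DensStmt := H13.dens
  have hLow : LowbStmt := H98.lowb
  have hStar : StarStmt := H98.star
  obtain ⟨C0, _, hb⟩ := qc_le hφ hQ
  obtain ⟨K, hKperf, hKne, hKK0⟩ := exists_perfect_nonempty_of_isClosed_of_not_countable hK0 hunc
  set P : ℝ → ℝ := fun y => ∫ t in Set.Ioi (0 : ℝ), φ (-t) * Real.exp (-(y * t)) with hP
  obtain ⟨D, F, hFgen, hFchi⟩ := hW K P hKne hKperf.acc
    (fun η y0 hη hy0 => hG φ hφ ⟨C0, hb⟩ hs η y0 hη hy0)
  set J := gen D.f with hJ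
  set z : ℕ → ℂ := fun N => (D.x 0 : ℂ) - Complex.I * (D.y N : ℂ) with hz
  have hzim : ∀ N, (z N).im = -D.y N := by
    intro N
    simp [hz]
  have hzneg : ∀ N, (z N).im < 0 := by
    intro N
    rw [hzim]
    linarith [D.y_pos N]
  have hzabs : ∀ N, |(z N).im| = D.y N := by
    intro N
    rw [hzim, abs_neg, abs_of_pos (D.y_pos N)]
  have hPp : ∀ N, 1 / D.y N ≤ P (D.y N) := fun N => P_pos hφ (D.y_pos N)
  have hPpos : ∀ N, 0 < P (D.y N) := fun N =>
    lt_of_lt_of_le (one_div_pos.mpr (D.y_pos N)) (hPp N)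
  have hfb : ∀ κ : J.Q →L[ℂ] ℂ, ∃ C : ℝ, ∀ N, ‖κ (J.q (z N))‖ ≤ C * P (D.y N) := by
    intro κ
    obtain ⟨C, hC⟩ := hF φ hφ hQ hNL L K P hE (hKK0.trans hK0L) hKperf.closed D F hFgen hFchi κ
    refine ⟨C, fun N => ?_⟩
    have h1 := hC (z N) (hzneg N)
    rw [hzabs N] at h1
    exact h1
  obtain ⟨C, hC⟩ := norm_q_bound J z (fun N => P (D.y N)) hPpos hfb
  -- constants
  set B : ℝ := 2 + |D.x 0| with hBdef
  have hB1 : 2 ≤ B := by
    have := abs_nonneg (D.x 0)
    linarith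
  set C' : ℝ := (|C| + 1) * (1 + B) + ‖rr‖ with hC'
  have hC'0 : 0 < C' := by
    have h1 := abs_nonneg C
    have h2 : (0 : ℝ) ≤ ‖rr‖ := norm_nonneg _
    have h3 : 0 < (|C| + 1) * (1 + B) := by positivity
    linarith
  have key : ∀ N : ℕ, 1 ≤ N → (N : ℝ) ≤ C' * B := by
    intro N hN
    have hN1 : (1 : ℝ) ≤ (N : ℝ) := by exact_mod_cast hN
    have hy := D.y_pos N
    have hyle := D.y_le N
    have hpow : (1 / 2 : ℝ) ^ N ≤ 1 := pow_le_one₀ (by norm_num) (by norm_num)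
    have hy1 : D.y N ≤ 1 := by
      rw [le_div_iff₀ (by linarith)] at hyle
      nlinarith
    have hP1 : 1 ≤ P (D.y N) := by
      refine le_trans ?_ (hPp N)
      rw [le_div_iff₀ hy]
      linarith
    have hn1 : ‖1 + Complex.I * z N‖ ≤ B := by
      refine (norm_one_add_le _).trans ?_
      have h1 : ‖z N‖ ≤ |D.x 0| + D.y N := by
        simp only [hz]
        refine (norm_sub_le _ _).trans ?_
        rw [Complex.norm_real, norm_mul, Complex.norm_I, one_mul, Complex.norm_real,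
          Real.norm_eq_abs, Real.norm_eq_abs, abs_of_pos hy]
      linarith
    have hunit : IsUnit (J.S.D (z N)) := by
      apply J.D_unit hL hR hA hD
      intro hz2
      obtain ⟨x, _, _, hx3⟩ := hull_subset hLow hKperf.closed D J (self_mem_gen D.f) _ hz2
      have h1 := congrArg Complex.im hx3
      rw [Complex.ofReal_im] at h1
      have h2 := hzneg N
      linarith
    obtain ⟨v, hv1, hv2⟩ := J.exists_lift (J.q (z N)) one_pos
    set j : Y := v - (1 + Complex.I * z N) • YS.En 1 v - rr with hj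
    have hjI : j ∈ J.I := by
      rw [← J.qm_eq_zero, hj, map_sub, map_sub, map_smul, sub_eq_zero, ← J.D_q hunit,
        CSemi.D_apply, hv1]
      congr 2
      have h1 := J.qm_pi (fun s => Complex.exp (-((1 : ℂ) * (s : ℂ)))) v
      rw [hv1] at h1
      exact h1
    have hchi : chi (z N) j = -(1 / (1 + Complex.I * z N)) := by
      have hne := one_add_ne (hzneg N).le
      rw [hj, map_sub, map_sub, map_smul, chi_En_one (hzneg N).le, chi_rr (hzneg N).le, smul_eq_mul]
      field_simp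
      ring
    have hst := hStar K P D j hjI N
    have hst' : ‖chi (z N) j‖ ≤ ‖j‖ * Real.exp (-((1 / 2 : ℝ) ^ N / (2 * D.y N))) := hst
    rw [hchi, norm_neg, norm_div, norm_one] at hst'
    have hnpos : 0 < ‖1 + Complex.I * z N‖ := norm_pos_iff.mpr (one_add_ne (hzneg N).le)
    have h1B : 1 / B ≤ 1 / ‖1 + Complex.I * z N‖ := one_div_le_one_div_of_le hnpos hn1
    have hEn : ‖YS.En 1 v‖ ≤ ‖v‖ := by
      have h1 := (YS.En 1).le_opNorm v
      have h2 := YS.En_norm (a := 1) (by simp)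
      simp only [Complex.one_re, div_one] at h2
      calc ‖YS.En 1 v‖ ≤ ‖YS.En 1‖ * ‖v‖ := h1
        _ ≤ 1 * ‖v‖ := mul_le_mul_of_nonneg_right h2 (norm_nonneg _)
        _ = ‖v‖ := one_mul _
    have hvn : ‖v‖ ≤ (|C| + 1) * P (D.y N) := by
      have h1 := hC N
      have h2 : C * P (D.y N) ≤ |C| * P (D.y N) :=
        mul_le_mul_of_nonneg_right (le_abs_self C) (hPpos N).le
      nlinarith
    have hjn : ‖j‖ ≤ C' * P (D.y N) := by
      have h1 : ‖j‖ ≤ ‖v‖ + ‖1 + Complex.I * z N‖ * ‖YS.En 1 v‖ + ‖rr‖ := by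
        rw [hj]
        refine (norm_sub_le _ _).trans ?_
        refine add_le_add_left ((norm_sub_le _ _).trans ?_) _
        rw [norm_smul]
      have h2 : ‖1 + Complex.I * z N‖ * ‖YS.En 1 v‖ ≤ B * ‖v‖ :=
        mul_le_mul hn1 hEn (norm_nonneg _) (by linarith)
      have h3 : (0 : ℝ) ≤ ‖rr‖ := norm_nonneg _
      have h4 : ‖rr‖ ≤ ‖rr‖ * P (D.y N) := le_mul_of_one_le_right h3 hP1
      calc ‖j‖ ≤ ‖v‖ + B * ‖v‖ + ‖rr‖ := by linarith
        _ = (1 + B) * ‖v‖ + ‖rr‖ := by ring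
        _ ≤ (1 + B) * ((|C| + 1) * P (D.y N)) + ‖rr‖ * P (D.y N) :=
            add_le_add (mul_le_mul_of_nonneg_left hvn (by linarith)) h4
        _ = C' * P (D.y N) := by rw [hC']; ring
    have hexp : P (D.y N) * Real.exp (-((1 / 2 : ℝ) ^ N / (2 * D.y N))) ≤ Real.exp (-(N : ℝ)) := by
      calc P (D.y N) * Real.exp (-((1 / 2 : ℝ) ^ N / (2 * D.y N)))
          ≤ Real.exp ((1 / 2 : ℝ) ^ N / (4 * D.y N)) *
            Real.exp (-((1 / 2 : ℝ) ^ N / (2 * D.y N))) :=
            mul_le_mul_of_nonneg_right (D.P_le N) (Real.exp_pos _).le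
        _ = Real.exp (-((1 / 2 : ℝ) ^ N / (4 * D.y N))) := by
            rw [← Real.exp_add]
            congr 1
            field_simp
            ring
        _ ≤ Real.exp (-(N : ℝ)) := Real.exp_le_exp.mpr (by linarith [D.y_le N])
    have hfin : 1 / B ≤ C' * Real.exp (-(N : ℝ)) := by
      calc 1 / B ≤ ‖j‖ * Real.exp (-((1 / 2 : ℝ) ^ N / (2 * D.y N))) := h1B.trans hst'
        _ ≤ (C' * P (D.y N)) * Real.exp (-((1 / 2 : ℝ) ^ N / (2 * D.y N))) :=
            mul_le_mul_of_nonneg_right hjn (Real.exp_pos _).le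
        _ = C' * (P (D.y N) * Real.exp (-((1 / 2 : ℝ) ^ N / (2 * D.y N)))) := by ring
        _ ≤ C' * Real.exp (-(N : ℝ)) := mul_le_mul_of_nonneg_left hexp hC'0.le
    have h5 : Real.exp (N : ℝ) ≤ C' * B := by
      rw [Real.exp_neg, div_le_iff₀ (by linarith)] at hfin
      have h6 := Real.exp_pos (N : ℝ)
      calc Real.exp (N : ℝ) = 1 * Real.exp (N : ℝ) := (one_mul _).symm
        _ ≤ (C' * (Real.exp (N : ℝ))⁻¹ * B) * Real.exp (N : ℝ) :=
            mul_le_mul_of_nonneg_right hfin h6.le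
        _ = C' * B := by field_simp
    have h7 := Real.add_one_le_exp (N : ℝ)
    linarith
  obtain ⟨N, hN⟩ := exists_nat_gt (C' * B)
  have h1 := key (N + 1) (by omega)
  push_cast at h1
  linarith

end

end Pool.Agent.WK5
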