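import Pool.Agent.WK5.Stmts
import Pool.Agent.Helper92_E.Pos2a
import Pool.Agent.Helper85_E.Lapu

/-!
# MP_7d2497_an, squad WK5, row GNF (helper24): membership in the closed ideal generated by `f`
-/

set_option autoImplicit false

namespace Pool.Agent.WK5

open MeasureTheory Filter Topology Complex
open Pool.Agent.H78E Pool.Agent.WKS

noncomputable section

/-- GNF -/
theorem gnf : GnfStmt := by
  intro f g h
  obtain ⟨J, hJ⟩ : ∃ J : InvSub, J = gen f := ⟨_, rfl⟩
  rw [← hJ]
  have hf : f ∈ J.I := by
    rw [hJ]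
    exact self_mem_gen f
  have h1 : YS.En 1 (YS.En 1 g) = conv f (conv f f) := by
    rw [← sub_eq_zero]
    apply H85.lapu
    intro z hz
    rw [map_sub, chi_En_one hz.le, chi_En_one hz.le, chi_conv hz.le, chi_conv hz.le, h z hz]
    have h2 : 1 + Complex.I * z ≠ 0 := by
      intro h3
      have h4 := congrArg Complex.re h3
      simp at h4
      linarith
    field_simp
    try ring
  have h2 : J.qm (YS.En 1 (YS.En 1 g)) = 0 := by
    rw [h1, J.qm_eq_zero]
    exact J.conv_mem_right f (J.conv_mem_right f hf)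
  rw [← InvSub.qm_En, ← InvSub.qm_En] at h2
  have h3 := H92.En_inj J h2
  have h4 := H92.En_inj J h3
  exact J.qm_eq_zero.1 h4

end

end Pool.Agent.WK5
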