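import Pool.Agent.WK5.Stmts

/-!
# MP_7d2497_an, squad WK5: row GRW (growth of the Laplace integral)
-/

set_option autoImplicit false

namespace Pool.Agent.WK5

open MeasureTheory Filter Topology Complex
open Pool.Agent.H78E Pool.Agent.WKS

noncomputable section

namespace Grw33

/-- subadditivity, iterated -/
lemma grow_step {φ : ℝ → ℝ} (hφ : IsWeight φ) {C : ℝ}
    (hC : ∀ t : ℝ, 0 ≤ t → φ t ≤ C * (1 + t)) {t : ℝ}
    (ht : 0 < t) : ∀ (n : ℕ) (s : ℝ), 0 ≤ s → s ≤ ((n : ℝ) + 1) * t →
      Real.log (φ (-s)) ≤ ((n : ℝ) + 1) * (Real.log (φ (-t)) + Real.log (C * (1 + t))) := by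
  have hpos : ∀ s, 0 < φ s := fun s => lt_of_lt_of_le one_pos (hφ.one_le s)
  have hC1 : 1 ≤ C := by
    have := (hφ.one_le 0).trans (hC 0 le_rfl)
    linarith
  have hCt : 1 ≤ C * (1 + t) := by nlinarith
  have hlogC : 0 ≤ Real.log (C * (1 + t)) := Real.log_nonneg hCt
  have hlogt : 0 ≤ Real.log (φ (-t)) := Real.log_nonneg (hφ.one_le _)
  have h0 : ∀ s, 0 ≤ s → s ≤ t →
      Real.log (φ (-s)) ≤ Real.log (φ (-t)) + Real.log (C * (1 + t)) := by
    intro s hs0 hst
    rw [← Real.log_mul (hpos _).ne' (by linarith)]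
    apply Real.log_le_log (hpos _)
    have h1 := hφ.submul (-t) (t - s)
    have h2 : -t + (t - s) = -s := by ring
    rw [h2] at h1
    refine h1.trans (mul_le_mul_of_nonneg_left ?_ (hpos _).le)
    refine (hC _ (by linarith)).trans ?_
    exact mul_le_mul_of_nonneg_left (by linarith) (by linarith)
  intro n
  induction n with
  | zero =>
    intro s hs0 hst
    have := h0 s hs0 (by simpa using hst)
    simpa using this
  | succ n ih =>
    intro s hs0 hst
    rcases le_total s t with h | h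
    · have h1 := h0 s hs0 h
      have h2 : (0 : ℝ) ≤ ((n + 1 : ℕ) : ℝ) := Nat.cast_nonneg _
      nlinarith
    · have h1 := ih (s - t) (by linarith) (by push_cast at hst ⊢; nlinarith)
      have h2 : Real.log (φ (-s)) ≤ Real.log (φ (-t)) + Real.log (φ (-(s - t))) := by
        rw [← Real.log_mul (hpos _).ne' (hpos _).ne']
        apply Real.log_le_log (hpos _)
        have h3 := hφ.submul (-t) (-(s - t))
        have h4 : -t + -(s - t) = -s := by ring
        rwa [h4] at h3
      push_cast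
      nlinarith

lemma grow_lin {φ : ℝ → ℝ} (hφ : IsWeight φ) {C : ℝ}
    (hC : ∀ t : ℝ, 0 ≤ t → φ t ≤ C * (1 + t)) {t : ℝ}
    (ht : 0 < t) {s : ℝ} (hs : 0 ≤ s) :
    Real.log (φ (-s)) ≤ (s / t + 1) * (Real.log (φ (-t)) + Real.log (C * (1 + t))) := by
  have hC1 : 1 ≤ C := by
    have := (hφ.one_le 0).trans (hC 0 le_rfl)
    linarith
  have hCt : 1 ≤ C * (1 + t) := by nlinarith
  have hlogC : 0 ≤ Real.log (C * (1 + t)) := Real.log_nonneg hCt
  have hlogt : 0 ≤ Real.log (φ (-t)) := Real.log_nonneg (hφ.one_le _)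
  have h1 : s / t < (⌊s / t⌋₊ : ℝ) + 1 := Nat.lt_floor_add_one _
  have h2 : (⌊s / t⌋₊ : ℝ) ≤ s / t := Nat.floor_le (div_nonneg hs ht.le)
  refine (grow_step hφ hC ht ⌊s / t⌋₊ s hs ?_).trans ?_
  · rw [div_lt_iff₀ ht] at h1
    exact h1.le
  · exact mul_le_mul_of_nonneg_right (by linarith) (by linarith)

end Grw33

open Grw33 in
/-- GRW -/
theorem grw : GrwStmt := by
  rintro φ hφ ⟨C, hC⟩ hinf η y0 hη hy0
  have hpos : ∀ s, 0 < φ s := fun s => lt_of_lt_of_le one_pos (hφ.one_le s)
  -- the constant `c`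
  obtain ⟨c, hc, hc2⟩ : ∃ c : ℝ, 0 < c ∧ 16 * c ^ 2 ≤ η := by
    refine ⟨Real.sqrt η / 4, by positivity, ?_⟩
    rw [div_pow, Real.sq_sqrt hη.le]
    apply le_of_eq
    ring
  -- large `u = sqrt t / (2 c)` satisfies `u ≤ exp (η / 4 * u)`
  have hlim : ∀ᶠ u : ℝ in atTop, u ≤ Real.exp (η / 4 * u) := by
    have h1 : Tendsto (fun x : ℝ => Real.exp x / x ^ 2) atTop atTop :=
      Real.tendsto_exp_div_pow_atTop 2
    have h2 : Tendsto (fun u : ℝ => η / 4 * u) atTop atTop :=
      tendsto_id.const_mul_atTop (by positivity)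
    filter_upwards [(h1.comp h2).eventually_ge_atTop 1, eventually_ge_atTop (16 / η ^ 2),
      eventually_gt_atTop (0 : ℝ)] with u hu hu2 hu0
    simp only [Function.comp] at hu
    have h3 : 0 < (η / 4 * u) ^ 2 := by positivity
    rw [le_div_iff₀ h3, one_mul] at hu
    refine le_trans ?_ hu
    have h4 : 16 ≤ u * η ^ 2 := by
      rw [div_le_iff₀ (by positivity)] at hu2
      exact hu2
    have h5 : (η / 4 * u) ^ 2 = u * (u * η ^ 2) / 16 := by ring
    rw [h5]
    nlinarith
  obtain ⟨U, hU⟩ := eventually_atTop.1 hlim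
  have hC1 : 1 ≤ C := by
    have := (hφ.one_le 0).trans (hC 0 le_rfl)
    linarith
  -- large `q = sqrt t` satisfies `log (C (1 + q ^ 2)) ≤ c q`
  have hlim2 : ∀ᶠ q : ℝ in atTop, Real.log (C * (1 + q * q)) ≤ c * q := by
    have h1 : Tendsto (fun x : ℝ => Real.exp x / x ^ 2) atTop atTop :=
      Real.tendsto_exp_div_pow_atTop 2
    have h2 : Tendsto (fun q : ℝ => c * q) atTop atTop := tendsto_id.const_mul_atTop hc
    filter_upwards [(h1.comp h2).eventually_ge_atTop (2 * C / c ^ 2),
      eventually_ge_atTop (1 : ℝ)] with q hq hq1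
    simp only [Function.comp] at hq
    have h3 : 0 < (c * q) ^ 2 := by positivity
    rw [le_div_iff₀ h3] at hq
    have h4 : 2 * C / c ^ 2 * (c * q) ^ 2 = 2 * C * (q * q) := by
      field_simp
    rw [h4] at hq
    rw [Real.log_le_iff_le_exp (by positivity)]
    have h5 : 1 ≤ q * q := by nlinarith
    have h6 : C * (1 + q * q) ≤ C * (q * q + q * q) :=
      mul_le_mul_of_nonneg_left (by linarith) (by linarith)
    linarith
  obtain ⟨V, hV⟩ := eventually_atTop.1 hlim2
  -- a large `t`
  set R : ℝ := max 1 (max (4 * c / y0) (max V (2 * c * U))) with hR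
  obtain ⟨t, htR, ht⟩ := hinf c hc (R ^ 2)
  have hR1 : 1 ≤ R := le_max_left _ _
  have hRy : 4 * c / y0 ≤ R := (le_max_left _ _).trans (le_max_right _ _)
  have hRD : V ≤ R := ((le_max_left _ _).trans (le_max_right _ _)).trans (le_max_right _ _)
  have hRU : 2 * c * U ≤ R := ((le_max_right _ _).trans (le_max_right _ _)).trans (le_max_right _ _)
  have ht0 : 0 < t := lt_of_lt_of_le (by positivity) htR
  set q := Real.sqrt t with hq
  have hqR : R ≤ q := Real.le_sqrt_of_sq_le htR
  have hq0 : 0 < q := lt_of_lt_of_le (by linarith) hqR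
  have hqq : q * q = t := Real.mul_self_sqrt ht0.le
  refine ⟨4 * c / q, by positivity, ?_, ?_⟩
  · rw [div_le_iff₀ hq0]
    rw [div_le_iff₀ hy0] at hRy
    nlinarith
  -- pointwise bound
  set D := Real.log (C * (1 + t)) with hD
  have hK : Real.log (φ (-t)) + D ≤ 2 * c * q := by
    have h1 : D ≤ c * q := by
      have := hV q (hRD.trans hqR)
      rwa [hqq] at this
    linarith
  have hpt : ∀ s, 0 < s → φ (-s) * Real.exp (-(4 * c / q * s)) ≤
      Real.exp (2 * c * q) * Real.exp (-(2 * c / q) * s) := by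
    intro s hs
    have h1 := grow_lin hφ hC ht0 hs.le
    have h2 : (s / t + 1) * (Real.log (φ (-t)) + D) ≤ (s / t + 1) * (2 * c * q) :=
      mul_le_mul_of_nonneg_left hK (by positivity)
    have h3 : (s / t + 1) * (2 * c * q) = 2 * c / q * s + 2 * c * q := by
      rw [← hqq]
      field_simp
    have h4 : φ (-s) ≤ Real.exp (2 * c / q * s + 2 * c * q) := by
      rw [← Real.log_le_iff_le_exp (hpos _)]
      linarith
    calc φ (-s) * Real.exp (-(4 * c / q * s))
        ≤ Real.exp (2 * c / q * s + 2 * c * q) * Real.exp (-(4 * c / q * s)) :=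
          mul_le_mul_of_nonneg_right h4 (Real.exp_pos _).le
      _ = Real.exp (2 * c * q) * Real.exp (-(2 * c / q) * s) := by
          rw [← Real.exp_add, ← Real.exp_add]
          congr 1
          ring
  have hneg : -(2 * c / q) < 0 := by
    have : 0 < 2 * c / q := by positivity
    linarith
  have hint : IntegrableOn (fun s : ℝ => Real.exp (2 * c * q) * Real.exp (-(2 * c / q) * s))
      (Set.Ioi 0) := (integrableOn_exp_mul_Ioi hneg 0).const_mul _
  have hle : ∫ s in Set.Ioi (0 : ℝ), φ (-s) * Real.exp (-(4 * c / q * s)) ≤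
      ∫ s in Set.Ioi (0 : ℝ), Real.exp (2 * c * q) * Real.exp (-(2 * c / q) * s) := by
    refine integral_mono_of_nonneg ?_ hint ?_
    · exact Eventually.of_forall fun s => mul_nonneg (hpos _).le (Real.exp_pos _).le
    · exact (ae_restrict_iff' measurableSet_Ioi).2 (Eventually.of_forall fun s hs => hpt s hs)
  refine hle.trans ?_
  rw [integral_const_mul, integral_exp_mul_Ioi hneg 0]
  have h1 : -Real.exp (-(2 * c / q) * 0) / -(2 * c / q) = q / (2 * c) := by
    rw [mul_zero, Real.exp_zero, neg_div_neg_eq, one_div_div]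
  rw [h1]
  have h2 : q / (2 * c) ≤ Real.exp (η / 4 * (q / (2 * c))) := by
    apply hU
    rw [le_div_iff₀ (by positivity)]
    linarith
  calc Real.exp (2 * c * q) * (q / (2 * c))
      ≤ Real.exp (2 * c * q) * Real.exp (η / 4 * (q / (2 * c))) :=
        mul_le_mul_of_nonneg_left h2 (Real.exp_pos _).le
    _ = Real.exp (2 * c * q + η / 4 * (q / (2 * c))) := (Real.exp_add _ _).symm
    _ ≤ Real.exp (η / (4 * c / q)) := by
        apply Real.exp_le_exp.2
        have h3 : η / (4 * c / q) = η * q / (4 * c) := by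
          rw [div_div_eq_mul_div]
        have h4 : η / 4 * (q / (2 * c)) = η * q / (4 * c) / 2 := by
          field_simp
        have h5 : 2 * c * q ≤ η * q / (4 * c) / 2 := by
          rw [div_div, le_div_iff₀ (by positivity)]
          nlinarith
        linarith
end

end Pool.Agent.WK5
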