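import Pool.Agent.WK5.Stmts
import Pool.Agent.Helper72_E.Lag

/-!
# WK5, row LG4: `(1-v)^4 exp(-c v/(1-v))` has Taylor coefficients with a finite first moment
-/

set_option autoImplicit false

namespace Pool.Agent.WK5

open MeasureTheory Filter Topology Complex
open Pool.Agent.H78E

noncomputable section

namespace H39

/-- the exponential factor -/
def Ex (c : ℝ) (v : ℂ) : ℂ := Complex.exp (-((c : ℂ) * v / (1 - v)))

/-- the function -/
def L0 (c : ℝ) (v : ℂ) : ℂ := (1 - v) ^ 4 * Ex c v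

/-- its derivative -/
def L1d (c : ℝ) (v : ℂ) : ℂ := -(4 * (1 - v) ^ 3 + c * (1 - v) ^ 2) * Ex c v

/-- its second derivative -/
def L2d (c : ℝ) (v : ℂ) : ℂ := (12 * (1 - v) ^ 2 + 6 * c * (1 - v) + c ^ 2) * Ex c v

theorem hasDerivAt_Ex (c : ℝ) {v : ℂ} (hv : v ≠ 1) :
    HasDerivAt (Ex c) (-(c : ℂ) / (1 - v) ^ 2 * Ex c v) v := by
  have h1 : (1 : ℂ) - v ≠ 0 := sub_ne_zero.2 (Ne.symm hv)
  have h2 : HasDerivAt (fun v : ℂ => 1 - v) (-1) v := by
    simpa using (hasDerivAt_id v).const_sub 1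
  have h3 : HasDerivAt (fun v : ℂ => (c : ℂ) * v / (1 - v))
      (((c : ℂ) * (1 - v) - (c : ℂ) * v * (-1)) / (1 - v) ^ 2) v := by
    have h4 : HasDerivAt (fun v : ℂ => (c : ℂ) * v) (c : ℂ) v := by
      simpa using (hasDerivAt_id v).const_mul (c : ℂ)
    exact h4.div h2 h1
  have h5 := h3.fun_neg.cexp
  refine h5.congr_deriv ?_
  unfold Ex
  field_simp
  ring

theorem hasDerivAt_L0 (c : ℝ) {v : ℂ} (hv : v ≠ 1) : HasDerivAt (L0 c) (L1d c v) v := by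
  have h1 : (1 : ℂ) - v ≠ 0 := sub_ne_zero.2 (Ne.symm hv)
  have h2 : HasDerivAt (fun v : ℂ => 1 - v) (-1) v := by
    simpa using (hasDerivAt_id v).const_sub 1
  have h5 : HasDerivAt (fun w : ℂ => (1 - w) ^ 4 * Ex c w) _ v :=
    (h2.fun_pow 4).fun_mul (hasDerivAt_Ex c hv)
  refine h5.congr_deriv ?_
  unfold L1d
  push_cast
  field_simp
  ring

theorem hasDerivAt_L1d (c : ℝ) {v : ℂ} (hv : v ≠ 1) : HasDerivAt (L1d c) (L2d c v) v := by
  have h1 : (1 : ℂ) - v ≠ 0 := sub_ne_zero.2 (Ne.symm hv)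
  have h2 : HasDerivAt (fun v : ℂ => 1 - v) (-1) v := by
    simpa using (hasDerivAt_id v).const_sub 1
  have h5 : HasDerivAt (fun w : ℂ => -(4 * (1 - w) ^ 3 + c * (1 - w) ^ 2) * Ex c w) _ v :=
    ((((h2.fun_pow 3).const_mul (4 : ℂ)).fun_add ((h2.fun_pow 2).const_mul (c : ℂ))).fun_neg).fun_mul
      (hasDerivAt_Ex c hv)
  refine h5.congr_deriv ?_
  unfold L2d
  push_cast
  field_simp
  ring

/-- Taylor coefficients at `0` -/
def tc (f : ℂ → ℂ) (n : ℕ) : ℂ := ((n.factorial : ℂ))⁻¹ * iteratedDeriv n f 0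

theorem hasSum_tc {f : ℂ → ℂ} (hf : DifferentiableOn ℂ f (Metric.ball 0 1)) {z : ℂ}
    (hz : ‖z‖ < 1) : HasSum (fun n => tc f n * z ^ n) (f z) := by
  have h1 := Complex.hasSum_taylorSeries_on_ball (r := 1) (c := 0) (f := f) (by simpa using hf)
    (z := z) (by simpa using hz)
  refine h1.congr_fun ?_ |> fun h => h
  intro n
  simp only [tc, smul_eq_mul, sub_zero]
  ring

theorem tc_deriv2 (f : ℂ → ℂ) (n : ℕ) :
    tc (deriv (deriv f)) n = ((n : ℂ) + 2) * ((n : ℂ) + 1) * tc f (n + 2) := by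
  unfold tc
  rw [← iteratedDeriv_succ', ← iteratedDeriv_succ', Nat.factorial_succ, Nat.factorial_succ]
  push_cast
  have h1 : (n : ℂ) + 1 ≠ 0 := by exact_mod_cast Nat.succ_ne_zero n
  have h2 : (n : ℂ) + 1 + 1 ≠ 0 := by exact_mod_cast Nat.succ_ne_zero (n + 1)
  have h3 : (n : ℂ) + 2 = (n : ℂ) + 1 + 1 := by ring
  rw [h3]
  field_simp

end H39

open H39

theorem lg4 : Lg4Stmt := by
  intro c hc
  have hne : ∀ v : ℂ, ‖v‖ < 1 → v ≠ 1 := by
    rintro v hv rfl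
    simp at hv
  have hdiff : DifferentiableOn ℂ (L0 c) (Metric.ball 0 1) := by
    intro v hv
    exact (hasDerivAt_L0 c (hne v (by simpa using hv))).differentiableAt.differentiableWithinAt
  have hdiff2 : DifferentiableOn ℂ (deriv (deriv (L0 c))) (Metric.ball 0 1) :=
    (hdiff.deriv Metric.isOpen_ball).deriv Metric.isOpen_ball
  obtain ⟨a, ha⟩ : ∃ a : ℕ → ℂ, a = tc (L0 c) := ⟨_, rfl⟩
  obtain ⟨b, hb⟩ : ∃ b : ℕ → ℂ, b = tc (deriv (deriv (L0 c))) := ⟨_, rfl⟩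
  have hA : ∀ z : ℂ, ‖z‖ < 1 → HasSum (fun n => a n * z ^ n) (L0 c z) := by
    intro z hz
    rw [ha]
    exact hasSum_tc hdiff hz
  have hB : ∀ z : ℂ, ‖z‖ < 1 → HasSum (fun n => b n * z ^ n) (deriv (deriv (L0 c)) z) := by
    intro z hz
    rw [hb]
    exact hasSum_tc hdiff2 hz
  have hab : ∀ n : ℕ, b n = ((n : ℂ) + 2) * ((n : ℂ) + 1) * a (n + 2) := by
    intro n
    rw [ha, hb]
    exact tc_deriv2 _ n
  have hd2 : ∀ z : ℂ, ‖z‖ < 1 → deriv (deriv (L0 c)) z = L2d c z := by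
    intro z hz
    have h1 : deriv (L0 c) =ᶠ[𝓝 z] L1d c := by
      have h2 : ∀ᶠ w : ℂ in 𝓝 z, w ≠ 1 := isOpen_ne.mem_nhds (hne z hz)
      filter_upwards [h2] with w hw
      exact (hasDerivAt_L0 c hw).deriv
    rw [h1.deriv_eq]
    exact (hasDerivAt_L1d c (hne z hz)).deriv
  have hbd : ∀ z : ℂ, ‖z‖ < 1 →
      ‖deriv (deriv (L0 c)) z‖ ≤ (48 + 12 * c + c ^ 2) * Real.exp (c / 2) := by
    intro z hz
    have h1 : ‖1 - z‖ ≤ 2 := by
      calc ‖1 - z‖ ≤ ‖(1 : ℂ)‖ + ‖z‖ := norm_sub_le _ _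
        _ ≤ 2 := by rw [norm_one]; linarith
    have hcn : ‖(c : ℂ)‖ = c := by rw [Complex.norm_real, Real.norm_eq_abs, abs_of_pos hc]
    rw [hd2 z hz]
    unfold L2d
    rw [norm_mul]
    refine mul_le_mul ?_ (H72.norm_exp_le c hc hz.le (hne z hz)) (norm_nonneg _) (by positivity)
    calc ‖12 * (1 - z) ^ 2 + 6 * (c : ℂ) * (1 - z) + (c : ℂ) ^ 2‖
        ≤ ‖12 * (1 - z) ^ 2‖ + ‖6 * (c : ℂ) * (1 - z)‖ + ‖(c : ℂ) ^ 2‖ := norm_add₃_le
      _ = 12 * ‖1 - z‖ ^ 2 + 6 * c * ‖1 - z‖ + c ^ 2 := by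
          rw [norm_mul, norm_mul, norm_mul, norm_pow, norm_pow, hcn]
          have e1 : ‖(12 : ℂ)‖ = 12 := by simp
          have e2 : ‖(6 : ℂ)‖ = 6 := by simp
          rw [e1, e2]
      _ ≤ 12 * 2 ^ 2 + 6 * c * 2 + c ^ 2 := by gcongr
      _ = 48 + 12 * c + c ^ 2 := by ring
  have hsq := H72.sq_summable_coeff b (deriv (deriv (L0 c))) _ hB hbd
  have hsum2 : Summable fun n : ℕ => (((n + 2 : ℕ) : ℝ) + 1) * ‖a (n + 2)‖ := by
    have hinv : Summable fun n : ℕ => (9 / 4 : ℝ) * (1 / ((n : ℝ) + 1) ^ 2) := by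
      have := (summable_nat_add_iff 1).2 (Real.summable_one_div_nat_pow.2 (by norm_num : 1 < 2))
      refine (this.congr fun n => ?_).mul_left _
      push_cast
      rfl
    refine Summable.of_nonneg_of_le (fun n => by positivity) (fun n => ?_) (hsq.add hinv)
    have hn : (0 : ℝ) < (n : ℝ) + 1 := by positivity
    have hn2 : (0 : ℝ) < (n : ℝ) + 2 := by positivity
    have h1 : ‖b n‖ = ((n : ℝ) + 2) * ((n : ℝ) + 1) * ‖a (n + 2)‖ := by
      rw [hab, norm_mul]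
      congr 1
      have : ((n : ℂ) + 2) * ((n : ℂ) + 1) = ((((n : ℝ) + 2) * ((n : ℝ) + 1) : ℝ) : ℂ) := by
        push_cast
        rfl
      rw [this, Complex.norm_real, Real.norm_eq_abs, abs_of_pos (by positivity)]
    have h2 : (((n + 2 : ℕ) : ℝ) + 1) * ‖a (n + 2)‖ ≤ ‖b n‖ * (3 / 2 * (1 / ((n : ℝ) + 1))) := by
      rw [h1]
      have h3 : ((n : ℝ) + 2) * ((n : ℝ) + 1) * ‖a (n + 2)‖ * (3 / 2 * (1 / ((n : ℝ) + 1))) =
          (3 / 2 * ((n : ℝ) + 2)) * ‖a (n + 2)‖ := by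
        field_simp
      rw [h3]
      apply mul_le_mul_of_nonneg_right _ (norm_nonneg _)
      push_cast
      have : (0 : ℝ) ≤ n := Nat.cast_nonneg n
      linarith
    refine h2.trans ?_
    have h4 : (9 / 4 : ℝ) * (1 / ((n : ℝ) + 1) ^ 2) = (3 / 2 * (1 / ((n : ℝ) + 1))) ^ 2 := by
      rw [mul_pow, one_div_pow]
      norm_num
    rw [h4]
    nlinarith [sq_nonneg (‖b n‖ - 3 / 2 * (1 / ((n : ℝ) + 1))), sq_nonneg ‖b n‖,
      sq_nonneg (3 / 2 * (1 / ((n : ℝ) + 1)))]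
  have hsumw : Summable fun n : ℕ => ((n : ℝ) + 1) * ‖a n‖ := (summable_nat_add_iff 2).1 hsum2
  have hsum : Summable fun n => ‖a n‖ := by
    refine Summable.of_nonneg_of_le (fun n => norm_nonneg _) (fun n => ?_) hsumw
    have h0 : (0 : ℝ) ≤ n := Nat.cast_nonneg n
    nlinarith [norm_nonneg (a n)]
  -- the sum is continuous on the closed disc
  have hcont : ContinuousOn (fun z : ℂ => ∑' n, a n * z ^ n) (Metric.closedBall 0 1) := by
    refine continuousOn_tsum (u := fun n => ‖a n‖) (fun n => by fun_prop) hsum fun n z hz => ?_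
    rw [norm_mul, norm_pow]
    have hz' : ‖z‖ ≤ 1 := by simpa using hz
    calc ‖a n‖ * ‖z‖ ^ n ≤ ‖a n‖ * 1 := by gcongr; exact pow_le_one₀ (norm_nonneg _) hz'
      _ = ‖a n‖ := mul_one _
  -- radial limits
  have hrad : ∀ v : ℂ, ‖v‖ ≤ 1 → Tendsto (fun r : ℝ => ∑' n, a n * ((r : ℂ) * v) ^ n) (𝓝[<] 1)
      (𝓝 (∑' n, a n * v ^ n)) := by
    intro v hv
    have h1 : Tendsto (fun r : ℝ => (r : ℂ) * v) (𝓝[<] 1) (𝓝[Metric.closedBall 0 1] v) := by
      rw [tendsto_nhdsWithin_iff]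
      constructor
      · have : Continuous fun r : ℝ => (r : ℂ) * v := by fun_prop
        have h2 := (this.tendsto 1).mono_left (nhdsWithin_le_nhds (s := Set.Iio 1))
        simpa using h2
      · filter_upwards [Ioo_mem_nhdsLT (show (0 : ℝ) < 1 by norm_num)] with r hr
        rw [mem_closedBall_zero_iff, norm_mul, Complex.norm_real, Real.norm_eq_abs,
          abs_of_pos hr.1]
        nlinarith [norm_nonneg v, hr.1, hr.2]
    have hv' : v ∈ Metric.closedBall (0 : ℂ) 1 := by simpa using hv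
    exact (hcont v hv').tendsto.comp h1
  have hin : ∀ v : ℂ, ‖v‖ ≤ 1 → ∀ r : ℝ, 0 < r → r < 1 →
      ∑' n, a n * ((r : ℂ) * v) ^ n = L0 c (r * v) := by
    intro v hv r hr0 hr1
    refine (hA _ ?_).tsum_eq
    rw [norm_mul, Complex.norm_real, Real.norm_eq_abs, abs_of_pos hr0]
    nlinarith [norm_nonneg v]
  refine ⟨a, hsumw, fun v hv hv1 => ?_⟩
  have h1 := hrad v hv
  have h2 : Tendsto (fun r : ℝ => ∑' n, a n * ((r : ℂ) * v) ^ n) (𝓝[<] 1) (𝓝 (L0 c v)) := by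
    have hev : (fun r : ℝ => ∑' n, a n * ((r : ℂ) * v) ^ n) =ᶠ[𝓝[<] 1]
        fun r : ℝ => L0 c (r * v) := by
      filter_upwards [Ioo_mem_nhdsLT (show (0 : ℝ) < 1 by norm_num)] with r hr
      exact hin v hv r hr.1 hr.2
    refine (tendsto_congr' hev).2 ?_
    have h3 : Tendsto (fun r : ℝ => (r : ℂ) * v) (𝓝[<] 1) (𝓝 v) := by
      have : Continuous fun r : ℝ => (r : ℂ) * v := by fun_prop
      have h4 := (this.tendsto 1).mono_left (nhdsWithin_le_nhds (s := Set.Iio 1))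
      simpa using h4
    exact (hasDerivAt_L0 c hv1).continuousAt.tendsto.comp h3
  exact tendsto_nhds_unique h1 h2

end

end Pool.Agent.WK5
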