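import Pool.Agent.WK5.Stmts
import Pool.Agent.WK2.Cst
import Pool.Agent.Helper78_E.Simple

/-!
# MP_7d2497_an, squad WK5, row SMW: functionals with one-point spectrum
-/

set_option autoImplicit false

namespace Pool.Agent.WK5.H65

open MeasureTheory Filter Topology Complex
open Pool.Agent.H78E Pool.Agent.WKS
open Pool.Agent.WK3 (QC Lin)

noncomputable section

variable {φ : ℝ → ℝ}

/-- The elements `exp(-at)`. -/
theorem exists_exp (hφ : IsWeight φ) {a : ℂ} (hre : 0 < a.re) : ∃ r : Y, ∀ᵐ t : ℝ, 0 < t →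
    ((dv φ r : X) : ℝ → ℂ) t = Complex.exp (-(a * (t : ℂ))) := by
  have h2 := (GI.exp hφ hre).2
  have h3 := h2.integrable_indicator measurableSet_Ioi
  have h1 : L1 φ ((Set.Ioi (0 : ℝ)).indicator
      fun t : ℝ => Complex.exp (-(a * (t : ℂ)))) := by
    refine ⟨?_, ?_⟩
    · refine Measurable.aestronglyMeasurable ?_
      refine Measurable.indicator ?_ measurableSet_Ioi
      fun_prop
    · refine h3.congr (Eventually.of_forall fun t => ?_)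
      by_cases h : t ∈ Set.Ioi (0 : ℝ)
      · simp only [Set.indicator_of_mem h]
      · simp only [Set.indicator_of_notMem h, norm_zero, mul_zero]
  obtain ⟨F, hF⟩ := toYW hφ h1 (Eventually.of_forall fun t ht =>
    Set.indicator_of_notMem (fun h => absurd (Set.mem_Ioi.mp h) (not_lt.mpr ht.le)) _)
  refine ⟨F, ?_⟩
  filter_upwards [hF] with t ht h0
  rw [ht, Set.indicator_of_mem (show t ∈ Set.Ioi (0 : ℝ) from h0)]

theorem chiW_exp {a : ℂ} (hre : 0 < a.re) {r : Y} (hr : ∀ᵐ t : ℝ, 0 < t →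
    ((dv φ r : X) : ℝ → ℂ) t = Complex.exp (-(a * (t : ℂ)))) {w : ℂ} (hw : w.im ≤ 0) :
    chiW φ w r = 1 / (a + Complex.I * w) := by
  have h1 : 0 < (a + Complex.I * w).re := by
    simp only [Complex.add_re, Complex.mul_re, Complex.I_re, Complex.I_im, zero_mul, one_mul,
      zero_sub]
    linarith
  rw [chiW_eq_Ioi hw, ← integral_exp_im (a := a + Complex.I * w) h1]
  apply setIntegral_congr_ae measurableSet_Ioi
  filter_upwards [hr] with t ht h0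
  rw [ht h0, ← Complex.exp_add]
  congr 1
  ring

theorem norm_exp_le (hφ : IsWeight φ) {a : ℂ} (hre : 0 < a.re) {r : Y} (hr : ∀ᵐ t : ℝ, 0 < t →
    ((dv φ r : X) : ℝ → ℂ) t = Complex.exp (-(a * (t : ℂ)))) {A B : ℝ} (hA : 0 ≤ A) (hB : 0 ≤ B)
    (hb : ∀ t : ℝ, 0 < t → φ t ≤ A + B * t) :
    ‖r‖ ≤ A / a.re + 4 * B / a.re ^ 2 := by
  obtain ⟨y, hy⟩ : ∃ y : ℝ, y = a.re := ⟨_, rfl⟩
  rw [← hy] at hre ⊢
  have hre' : 0 < y := hre
  have h1 : ‖r‖ = ∫ t in Set.Ioi (0 : ℝ), φ t * Real.exp (-y * t) := by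
    rw [Pool.Agent.WK2.normW_eq hφ, ← integral_indicator measurableSet_Ioi]
    apply integral_congr_ae
    have h0 : ∀ᵐ t : ℝ, t ≠ 0 := by
      have : volume ({0} : Set ℝ) = 0 := by simp
      exact compl_mem_ae_iff.mpr this
    have hneg : ∀ᵐ t : ℝ, t < 0 → ((dv φ r : X) : ℝ → ℂ) t = 0 := (dv φ r).2
    filter_upwards [h0, hneg, hr] with t h1 h2 h3
    by_cases h : 0 < t
    · rw [Set.indicator_of_mem (show t ∈ Set.Ioi (0 : ℝ) from h), h3 h, Complex.norm_exp]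
      congr 2
      rw [hy]
      simp
    · rw [Set.indicator_of_notMem (show t ∉ Set.Ioi (0 : ℝ) from h),
        h2 (lt_of_le_of_ne (not_lt.mp h) h1), norm_zero, mul_zero]
  rw [h1]
  have i1 : IntegrableOn (fun t : ℝ => Real.exp (-y * t)) (Set.Ioi 0) :=
    integrableOn_exp_mul_Ioi (by linarith) 0
  have i2 : IntegrableOn (fun t : ℝ => Real.exp (-(y / 2) * t)) (Set.Ioi 0) :=
    integrableOn_exp_mul_Ioi (by linarith) 0
  have e1 : ∫ t in Set.Ioi (0 : ℝ), Real.exp (-y * t) = 1 / y := by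
    rw [integral_exp_mul_Ioi (by linarith) 0]
    simp
  have e2 : ∫ t in Set.Ioi (0 : ℝ), Real.exp (-(y / 2) * t) = 2 / y := by
    rw [integral_exp_mul_Ioi (by linarith) 0]
    simp
  have h2 : ∫ t in Set.Ioi (0 : ℝ), φ t * Real.exp (-y * t) ≤
      ∫ t in Set.Ioi (0 : ℝ), (A * Real.exp (-y * t) + (B * (2 / y)) * Real.exp (-(y / 2) * t)) := by
    refine integral_mono_of_nonneg ?_ ((i1.const_mul A).add (i2.const_mul (B * (2 / y)))) ?_
    · refine Eventually.of_forall fun t => ?_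
      exact mul_nonneg (zero_le_one.trans (hφ.one_le t)) (Real.exp_pos _).le
    · filter_upwards [ae_restrict_mem measurableSet_Ioi] with t ht
      have ht' : 0 < t := ht
      have h3 : t ≤ 2 / y * Real.exp (y / 2 * t) := by
        have h4 := Real.add_one_le_exp (y / 2 * t)
        have h5 : y / 2 * t ≤ Real.exp (y / 2 * t) := by linarith
        calc t = 2 / y * (y / 2 * t) := by field_simp
          _ ≤ _ := mul_le_mul_of_nonneg_left h5 (by positivity)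
      have h6 : Real.exp (-(y / 2) * t) = Real.exp (y / 2 * t) * Real.exp (-y * t) := by
        rw [← Real.exp_add]
        congr 1
        ring
      calc φ t * Real.exp (-y * t) ≤ (A + B * t) * Real.exp (-y * t) :=
            mul_le_mul_of_nonneg_right (hb t ht') (Real.exp_pos _).le
        _ = A * Real.exp (-y * t) + B * t * Real.exp (-y * t) := by ring
        _ ≤ A * Real.exp (-y * t) + B * (2 / y * Real.exp (y / 2 * t)) * Real.exp (-y * t) := by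
            gcongr
        _ = _ := by rw [h6]; ring
  refine h2.trans (le_of_eq ?_)
  rw [integral_add (i1.const_mul A) (i2.const_mul (B * (2 / y))), integral_const_mul,
    integral_const_mul, e1, e2]
  field_simp
  ring

/-- Linear bound. -/
theorem lin_bound (hφ : IsWeight φ) (hQ : QC φ) : ∃ A : ℝ, 0 ≤ A ∧ ∀ t : ℝ, 0 < t →
    φ t ≤ A + A * t := by
  obtain ⟨C, hC, hq⟩ := hQ
  obtain ⟨C1, hC1, hb⟩ := local_bound hφ 1
  have hφ1 : 0 < φ 1 := one_le_max_zero hφ 1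
  refine ⟨C1 + C * φ 1, by positivity, fun t ht => ?_⟩
  rcases le_total t 1 with h | h
  · have h1 := hb t (by rw [abs_of_pos ht]; exact h)
    have h2 : 0 ≤ C * φ 1 := by positivity
    have h3 : 0 ≤ (C1 + C * φ 1) * t := by positivity
    linarith
  · have h1 := (hq 1 t one_pos h).2
    rw [one_mul] at h1
    have h2 : C * (t * φ 1) = C * φ 1 * t := by ring
    have h3 : 0 ≤ C1 * t := by positivity
    have h4 : 0 ≤ C * φ 1 := by positivity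
    have h5 : (C1 + C * φ 1) * t = C1 * t + C * φ 1 * t := by ring
    linarith

/-- Less than linear growth. -/
theorem small_bound (hφ : IsWeight φ) (hQ : QC φ) (hL : ¬ Lin φ) {ε : ℝ} (hε : 0 < ε) :
    ∃ A : ℝ, 0 ≤ A ∧ ∀ t : ℝ, 0 < t → φ t ≤ A + ε * t := by
  obtain ⟨C, hC, hq⟩ := hQ
  have h1 : ∃ t0 : ℝ, 0 ≤ t0 ∧ C / ε * φ t0 < t0 := by
    by_contra hcon
    push Not at hcon
    exact hL ⟨C / ε, fun t ht => hcon t ht⟩
  obtain ⟨t0, ht0, hlt⟩ := h1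
  have hφ0 : 0 < φ t0 := one_le_max_zero hφ t0
  have ht0' : 0 < t0 := lt_of_le_of_lt (by positivity) hlt
  obtain ⟨C1, hC1, hb⟩ := local_bound hφ t0
  refine ⟨C1, hC1.le, fun t ht => ?_⟩
  rcases le_total t t0 with h | h
  · have h2 := hb t (by rw [abs_of_pos ht]; exact h)
    have h3 : 0 ≤ ε * t := by positivity
    linarith
  · have h2 := (hq t0 t ht0' h).2
    -- t0 * φ t ≤ C * (t * φ t0) ≤ ε t t0
    have h3 : C * φ t0 ≤ ε * t0 := by
      have h4 : C / ε * φ t0 * ε = C * φ t0 := by field_simp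
      have h5 := mul_lt_mul_of_pos_right hlt hε
      rw [h4] at h5
      linarith
    have h4 : t0 * φ t ≤ t0 * (ε * t) := by
      calc t0 * φ t ≤ C * (t * φ t0) := h2
        _ = (C * φ t0) * t := by ring
        _ ≤ (ε * t0) * t := mul_le_mul_of_nonneg_right h3 ht.le
        _ = t0 * (ε * t) := by ring
    have h5 := le_of_mul_le_mul_left h4 ht0'
    linarith

/-- The resolvent at the generator. -/
def qW (hφ : IsWeight φ) (J : ISub φ) (z : ℂ) : J.Q :=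
  Ring.inverse ((J.S hφ).D z) (J.qm (rw' φ))

theorem D_q (hφ : IsWeight φ) (J : ISub φ) {z : ℂ} (hz : IsUnit ((J.S hφ).D z)) :
    (J.S hφ).D z (qW hφ J z) = J.qm (rw' φ) := by
  have h := Ring.mul_inverse_cancel _ hz
  have h2 := congrArg (fun A : J.Q →L[ℂ] J.Q => A (J.qm (rw' φ))) h
  exact h2

theorem q_unique (hφ : IsWeight φ) (J : ISub φ) {z : ℂ} (hz : IsUnit ((J.S hφ).D z)) {x : J.Q}
    (hx : (J.S hφ).D z x = J.qm (rw' φ)) : x = qW hφ J z := by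
  have h := Ring.inverse_mul_cancel _ hz
  have h2 := congrArg (fun A : J.Q →L[ℂ] J.Q => A x) h
  have h3 : Ring.inverse ((J.S hφ).D z) ((J.S hφ).D z x) = x := h2
  rw [hx] at h3
  exact h3.symm

theorem q_differentiableAt (hφ : IsWeight φ) (J : ISub φ) {z : ℂ}
    (hz : IsUnit ((J.S hφ).D z)) : DifferentiableAt ℂ (qW hφ J) z := by
  have h1 : DifferentiableAt ℂ (fun z : ℂ => (J.S hφ).D z) z := by
    unfold GSemi.D
    fun_prop
  obtain ⟨u, hu⟩ := hz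
  have h2 : DifferentiableAt ℂ (Ring.inverse : (J.Q →L[ℂ] J.Q) → (J.Q →L[ℂ] J.Q))
      ((J.S hφ).D z) := by
    rw [← hu]
    exact differentiableAt_inverse u.isUnit
  have h3 : DifferentiableAt ℂ (fun z : ℂ => Ring.inverse ((J.S hφ).D z)) z :=
    DifferentiableAt.comp z h2 h1
  exact h3.clm_apply (differentiableAt_const _)

theorem D_exp (hφ : IsWeight φ) {z : ℂ} (hz : 0 < z.im) {r : Y} (hr : ∀ᵐ t : ℝ, 0 < t →
    ((dv φ r : X) : ℝ → ℂ) t = Complex.exp (-(-Complex.I * z * (t : ℂ)))) :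
    r - (1 + Complex.I * z) • (WS hφ).En 1 r = rw' φ := by
  have hre : 0 < (-Complex.I * z).re := by simpa using hz
  rw [← sub_eq_zero]
  apply lapuW hφ
  intro w hw
  rw [map_sub, map_sub, map_smul, chiW_En_one hφ hw.le, chiW_exp hre hr hw.le, chiW_rw hφ hw.le,
    smul_eq_mul]
  have n1 : 1 + Complex.I * w ≠ 0 := Pool.Agent.H78E.one_add_ne hw.le
  have n2 : -Complex.I * z + Complex.I * w ≠ 0 := by
    intro h
    have h' := congrArg Complex.re h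
    simp at h'
    linarith
  obtain ⟨d, hd⟩ : ∃ d : ℂ, d = -Complex.I * z + Complex.I * w := ⟨_, rfl⟩
  obtain ⟨e, he⟩ : ∃ e : ℂ, e = 1 + Complex.I * w := ⟨_, rfl⟩
  have h1 : 1 + Complex.I * z = e - d := by
    rw [hd, he]
    ring
  rw [h1, ← hd, ← he]
  rw [← hd] at n2
  rw [← he] at n1
  field_simp
  ring

theorem q_pos (hφ : IsWeight φ) (J : ISub φ) {z : ℂ} (hz : 0 < z.im) {r : Y}
    (hr : ∀ᵐ t : ℝ, 0 < t →
    ((dv φ r : X) : ℝ → ℂ) t = Complex.exp (-(-Complex.I * z * (t : ℂ)))) :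
    qW hφ J z = J.qm r := by
  symm
  apply q_unique hφ J ((J.S hφ).D_unit_pos hφ hz)
  have h := congrArg J.qm (D_exp hφ hz hr)
  rw [map_sub, map_smul] at h
  rw [GSemi.D_apply, ← h, J.qm_En hφ]

theorem q_bound (hφ : IsWeight φ) (J : ISub φ) {C : ℝ} (hC0 : 0 < C) {f : Y} (hf : f ∈ J.I)
    (hC : ∀ z : ℂ, z.im < 0 → ∀ x : J.Q,
      ‖chiW φ z f‖ * |z.im| * ‖(J.S hφ).En 1 x‖ ≤ C * ‖f‖ * ‖(J.S hφ).D z x‖)
    {z : ℂ} (hz : z.im < 0) (hu : IsUnit ((J.S hφ).D z)) {b : ℝ} (hb : 0 < b)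
    (hlow : b ≤ ‖chiW φ z f‖ * ‖1 + Complex.I * z‖) :
    ‖qW hφ J z‖ ≤ ‖rw' φ‖ * (1 + (1 + ‖z‖) ^ 2 * (C * ‖f‖) / (b * |z.im|)) := by
  have hD := D_q hφ J hu
  have h1 := hC z hz (qW hφ J z)
  have him : 0 < |z.im| := abs_pos.mpr hz.ne
  have hn : 0 < ‖1 + Complex.I * z‖ := norm_pos_iff.mpr (Pool.Agent.H78E.one_add_ne hz.le)
  have hchi : 0 < ‖chiW φ z f‖ := by
    by_contra hcon
    have : ‖chiW φ z f‖ = 0 := le_antisymm (not_lt.mp hcon) (norm_nonneg _)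
    rw [this, zero_mul] at hlow
    linarith
  have h2 : ‖(J.S hφ).D z (qW hφ J z)‖ ≤ ‖rw' φ‖ := by
    rw [hD]
    exact J.qm_norm_le _
  have hf0 : 0 ≤ ‖f‖ := norm_nonneg f
  have hr0 : 0 ≤ ‖rw' φ‖ := norm_nonneg _
  have h3 : ‖(J.S hφ).En 1 (qW hφ J z)‖ ≤ C * ‖f‖ * ‖rw' φ‖ / (‖chiW φ z f‖ * |z.im|) := by
    rw [le_div_iff₀ (mul_pos hchi him)]
    calc _ = ‖chiW φ z f‖ * |z.im| * ‖(J.S hφ).En 1 (qW hφ J z)‖ := by ring
      _ ≤ C * ‖f‖ * ‖(J.S hφ).D z (qW hφ J z)‖ := h1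
      _ ≤ C * ‖f‖ * ‖rw' φ‖ := by gcongr
  have h4 : qW hφ J z = J.qm (rw' φ) + (1 + Complex.I * z) • (J.S hφ).En 1 (qW hφ J z) := by
    rw [← hD, GSemi.D_apply]
    abel
  have h5 : ‖qW hφ J z‖ ≤ ‖rw' φ‖ + ‖1 + Complex.I * z‖ * ‖(J.S hφ).En 1 (qW hφ J z)‖ := by
    conv_lhs => rw [h4]
    refine (norm_add_le _ _).trans ?_
    rw [norm_smul]
    exact add_le_add (J.qm_norm_le _) le_rfl
  refine h5.trans ?_
  rw [mul_add, mul_one]
  apply add_le_add_right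
  calc ‖1 + Complex.I * z‖ * ‖(J.S hφ).En 1 (qW hφ J z)‖
      ≤ ‖1 + Complex.I * z‖ * (C * ‖f‖ * ‖rw' φ‖ / (‖chiW φ z f‖ * |z.im|)) :=
        mul_le_mul_of_nonneg_left h3 hn.le
    _ = ‖rw' φ‖ * (‖1 + Complex.I * z‖ ^ 2 * (C * ‖f‖) /
          (‖chiW φ z f‖ * ‖1 + Complex.I * z‖ * |z.im|)) := by
        field_simp
    _ ≤ ‖rw' φ‖ * ((1 + ‖z‖) ^ 2 * (C * ‖f‖) / (b * |z.im|)) := by
        have h6 := norm_one_add_le z
        gcongr

/-- Functionals are determined by the values at the exponentials. -/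
theorem ext_exp (hφ : IsWeight φ) {E : ℕ → Y} (hE : ∀ m : ℕ, ∀ᵐ t : ℝ, 0 < t →
    ((dv φ (E m) : X) : ℝ → ℂ) t = Complex.exp (-(((m : ℂ) + 1) * (t : ℂ))))
    {k l : Y →L[ℂ] ℂ} (h : ∀ m, k (E m) = l (E m)) : k = l := by
  ext F
  by_contra hne
  have hpos : 0 < ‖k F - l F‖ := norm_pos_iff.mpr (sub_ne_zero.mpr hne)
  obtain ⟨N, c, hc⟩ := Pool.Agent.WK2.Cst.densE hφ hE F
    (show 0 < ‖k F - l F‖ / (‖k - l‖ + 1) by positivity)
  obtain ⟨G, hG⟩ : ∃ G : Y, G = ∑ m ∈ Finset.range N, c m • E m := ⟨_, rfl⟩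
  have h1 : (k - l) G = 0 := by
    rw [hG, map_sum]
    refine Finset.sum_eq_zero fun m _ => ?_
    rw [map_smul]
    have : (k - l) (E m) = 0 := by
      change k (E m) - l (E m) = 0
      rw [h m, sub_self]
    rw [this, smul_zero]
  rw [← hG] at hc
  have h2 : k F - l F = (k - l) (F - G) := by
    rw [map_sub, h1, sub_zero]
    rfl
  have h3 : ‖(k - l) (F - G)‖ ≤ ‖k - l‖ * ‖F - G‖ := (k - l).le_opNorm _
  have h4 : ‖k - l‖ * ‖F - G‖ ≤ (‖k - l‖ + 1) * ‖F - G‖ :=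
    mul_le_mul_of_nonneg_right (by linarith) (norm_nonneg _)
  have h5 : (‖k - l‖ + 1) * ‖F - G‖ < (‖k - l‖ + 1) * (‖k F - l F‖ / (‖k - l‖ + 1)) :=
    mul_lt_mul_of_pos_left hc (by positivity)
  have h6 : (‖k - l‖ + 1) * (‖k F - l F‖ / (‖k - l‖ + 1)) = ‖k F - l F‖ := by
    field_simp
  rw [← h2] at h3
  linarith

end

end Pool.Agent.WK5.H65

namespace Pool.Agent.WK5

open MeasureTheory Filter Topology Complex
open Pool.Agent.H78E Pool.Agent.WKS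
open Pool.Agent.WK3 (QC Lin)

noncomputable section

/-- Row SMW. -/
theorem smw (hCA : CA3Stmt) (hLbw : LbwStmt) (hLow : LowbStmt) : SmwStmt := by
  intro φ hφ hQ hLin K P D Fφ hF k hk x0 hh
  obtain ⟨J, hJ⟩ : ∃ J : ISub φ, J = annW hφ k := ⟨_, rfl⟩
  obtain ⟨C, hC, hCb⟩ := hLbw φ hφ hQ
  obtain ⟨hlow1, hlow2⟩ := hLow K P D
  have hunit : ∀ z : ℂ, z ≠ (x0 : ℂ) → IsUnit (((annW hφ k).S hφ).D z) := by
    intro z hz
    apply (annW hφ k).D_unit hφ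
    intro hz2
    exact hz (hh hz2)
  have hne : ∀ z : ℂ, z.im ≠ 0 → z ≠ (x0 : ℂ) := by
    intro z hz h
    rw [h] at hz
    simp at hz
  obtain ⟨ψ, hψ⟩ : ∃ ψ : ℂ → ℂ, ψ = fun z => kqW hφ k (H65.qW hφ (annW hφ k) z) := ⟨_, rfl⟩
  have hψz : ∀ z, ψ z = kqW hφ k (H65.qW hφ (annW hφ k) z) := fun z => by rw [hψ]
  have hdiff : DifferentiableOn ℂ ψ {z : ℂ | z ≠ (x0 : ℂ)} := by
    intro z hz
    have h1 := H65.q_differentiableAt hφ (annW hφ k) (hunit z hz)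
    rw [hψ]
    exact ((kqW hφ k).differentiableAt.comp z h1).differentiableWithinAt
  have hpos : ∀ z : ℂ, 0 < z.im → ∀ r : Y, (∀ᵐ t : ℝ, 0 < t →
      ((dv φ r : X) : ℝ → ℂ) t = Complex.exp (-(-Complex.I * z * (t : ℂ)))) → ψ z = k r := by
    intro z hz r hr
    rw [hψz, H65.q_pos hφ (annW hφ k) hz hr, kqW_qm]
  have hkn : 0 ≤ ‖k‖ := ContinuousLinearMap.opNorm_nonneg k
  have hupper : ∀ A B : ℝ, 0 ≤ A → 0 ≤ B → (∀ t : ℝ, 0 < t → φ t ≤ A + B * t) →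
      ∀ z : ℂ, 0 < z.im → ‖ψ z‖ ≤ ‖k‖ * (A / z.im + 4 * B / z.im ^ 2) := by
    intro A B hA hB hb z hz
    have hre : 0 < (-Complex.I * z).re := by simpa using hz
    have hre' : (-Complex.I * z).re = z.im := by simp
    obtain ⟨r, hr⟩ := H65.exists_exp hφ hre
    rw [hpos z hz r hr]
    have h1 := H65.norm_exp_le hφ hre hr hA hB hb
    rw [hre'] at h1
    exact (k.le_opNorm _).trans (mul_le_mul_of_nonneg_left h1 hkn)
  have hi : ∃ M : ℝ, ∀ z : ℂ, 0 < z.im → ‖ψ z‖ ≤ M / z.im + M / z.im ^ 2 := by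
    obtain ⟨A, hA, hb⟩ := H65.lin_bound hφ hQ
    refine ⟨‖k‖ * (4 * A), fun z hz => (hupper A A hA hA hb z hz).trans ?_⟩
    have h1 : A / z.im ≤ 4 * A / z.im := by
      gcongr
      linarith
    calc ‖k‖ * (A / z.im + 4 * A / z.im ^ 2) ≤ ‖k‖ * (4 * A / z.im + 4 * A / z.im ^ 2) := by
          gcongr
      _ = _ := by ring
  obtain ⟨M, hM⟩ := hi
  have hi2 : ∀ ε : ℝ, 0 < ε → ∃ δ : ℝ, 0 < δ ∧ ∀ y : ℝ, 0 < y → y < δ →
      ‖ψ ((x0 : ℂ) + Complex.I * (y : ℂ))‖ ≤ ε / y ^ 2 := by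
    intro ε hε
    obtain ⟨A, hA, hb⟩ := H65.small_bound hφ hQ hLin
      (show 0 < ε / (8 * (‖k‖ + 1)) by positivity)
    refine ⟨ε / (2 * (‖k‖ * A + 1)), by positivity, fun y hy hyδ => ?_⟩
    have him : ((x0 : ℂ) + Complex.I * (y : ℂ)).im = y := by simp
    have h1 := hupper A (ε / (8 * (‖k‖ + 1))) hA (by positivity) hb
      ((x0 : ℂ) + Complex.I * (y : ℂ)) (by rw [him]; exact hy)
    rw [him] at h1
    refine h1.trans ?_
    rw [le_div_iff₀ (by positivity)]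
    have h2 : ‖k‖ * (A / y + 4 * (ε / (8 * (‖k‖ + 1))) / y ^ 2) * y ^ 2 =
        ‖k‖ * A * y + ‖k‖ / (‖k‖ + 1) * (ε / 2) := by
      field_simp
      ring
    rw [h2]
    have h3 : ‖k‖ / (‖k‖ + 1) ≤ 1 := by
      rw [div_le_one (by positivity)]
      linarith
    have h4 : ‖k‖ / (‖k‖ + 1) * (ε / 2) ≤ 1 * (ε / 2) := by gcongr
    have h5 : ‖k‖ * A * y ≤ (‖k‖ * A + 1) * y := by nlinarith
    have h6 : (‖k‖ * A + 1) * y < (‖k‖ * A + 1) * (ε / (2 * (‖k‖ * A + 1))) :=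
      mul_lt_mul_of_pos_left hyδ (by positivity)
    have h7 : (‖k‖ * A + 1) * (ε / (2 * (‖k‖ * A + 1))) = ε / 2 := by field_simp
    linarith
  have hcube : ∀ z : ℂ, z.im ≤ 0 → (∀ i, z ≠ (D.x i : ℂ)) →
      ‖chiW φ z Fφ‖ * ‖1 + Complex.I * z‖ = (‖chi z D.f‖ * ‖1 + Complex.I * z‖) ^ 3 := by
    intro z hz hzx
    rw [hF z hz hzx, norm_mul, norm_pow, norm_pow]
    ring
  have hkq : 0 ≤ ‖kqW hφ k‖ := norm_nonneg _
  have hrn : 0 ≤ ‖rw' φ‖ := norm_nonneg _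
  have hfn : 0 ≤ ‖Fφ‖ := norm_nonneg _
  have hneD : ∀ z : ℂ, z.im < 0 → ∀ i, z ≠ (D.x i : ℂ) := by
    intro z hz i h
    rw [h] at hz
    simp at hz
  have hii : ∀ η : ℝ, 0 < η → ∃ C : ℝ, ∀ z : ℂ, z.im < 0 →
      ‖ψ z‖ ≤ C * (1 + ‖z‖) ^ 2 * Real.exp (η / |z.im|) := by
    intro η hη
    obtain ⟨c, hc, hc2⟩ := hlow2 (η / 4) (by linarith)
    refine ⟨‖kqW hφ k‖ * ‖rw' φ‖ * (1 + C * ‖Fφ‖ * (4 / η) / c ^ 3), ?_⟩
    intro z hz
    have him : 0 < |z.im| := abs_pos.mpr hz.ne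
    obtain ⟨u, hu⟩ : ∃ u : ℝ, u = Real.exp (η / 4 / |z.im|) := ⟨_, rfl⟩
    have hu0 : 0 < u := by rw [hu]; exact Real.exp_pos _
    have huinv : Real.exp (-(η / 4 / |z.im|)) = u⁻¹ := by rw [Real.exp_neg, hu]
    have hb : 0 < (c * u⁻¹) ^ 3 := by positivity
    have hlow : (c * u⁻¹) ^ 3 ≤ ‖chiW φ z Fφ‖ * ‖1 + Complex.I * z‖ := by
      rw [hcube z hz.le (hneD z hz)]
      have := hc2 z hz
      rw [huinv] at this
      exact pow_le_pow_left₀ (by positivity) this 3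
    have h1 := H65.q_bound hφ (annW hφ k) hC hk (fun z hz x => hCb (annW hφ k) Fφ hk z hz x) hz
      (hunit z (hne z hz.ne)) hb hlow
    have h2 : ‖ψ z‖ ≤ ‖kqW hφ k‖ * ‖H65.qW hφ (annW hφ k) z‖ := by
      rw [hψz]
      exact (kqW hφ k).le_opNorm _
    have e1 : Real.exp (η / |z.im|) = u ^ 4 := by
      rw [hu, ← Real.exp_nat_mul]
      congr 1
      push_cast
      ring
    have e2 : (1 : ℝ) / |z.im| ≤ (4 / η) * u := by
      have := Real.add_one_le_exp (η / 4 / |z.im|)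
      rw [← hu] at this
      have h5 : η / 4 / |z.im| ≤ u := by linarith
      calc (1 : ℝ) / |z.im| = (4 / η) * (η / 4 / |z.im|) := by field_simp
        _ ≤ _ := mul_le_mul_of_nonneg_left h5 (by positivity)
    have h3 : C * ‖Fφ‖ / ((c * u⁻¹) ^ 3 * |z.im|) ≤
        C * ‖Fφ‖ * (4 / η) / c ^ 3 * u ^ 4 := by
      calc C * ‖Fφ‖ / ((c * u⁻¹) ^ 3 * |z.im|)
          = C * ‖Fφ‖ / c ^ 3 * u ^ 3 * (1 / |z.im|) := by
            field_simp
        _ ≤ C * ‖Fφ‖ / c ^ 3 * u ^ 3 * ((4 / η) * u) := by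
            gcongr
        _ = _ := by ring
    have hE : 1 ≤ u ^ 4 := by
      have : 1 ≤ u := by
        rw [hu]
        exact Real.one_le_exp (by positivity)
      exact one_le_pow₀ this
    have hZ : 1 ≤ (1 + ‖z‖) ^ 2 := by
      have := norm_nonneg z
      nlinarith
    have hZE : (1 : ℝ) ≤ (1 + ‖z‖) ^ 2 * u ^ 4 := by
      nlinarith
    rw [e1]
    calc ‖ψ z‖ ≤ ‖kqW hφ k‖ * ‖H65.qW hφ (annW hφ k) z‖ := h2
      _ ≤ ‖kqW hφ k‖ * (‖rw' φ‖ * (1 + (1 + ‖z‖) ^ 2 * (C * ‖Fφ‖) /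
          ((c * u⁻¹) ^ 3 * |z.im|))) := mul_le_mul_of_nonneg_left h1 hkq
      _ = ‖kqW hφ k‖ * (‖rw' φ‖ * (1 + (1 + ‖z‖) ^ 2 * (C * ‖Fφ‖ /
          ((c * u⁻¹) ^ 3 * |z.im|)))) := by rw [mul_div_assoc]
      _ ≤ ‖kqW hφ k‖ * (‖rw' φ‖ * ((1 + ‖z‖) ^ 2 * u ^ 4 + (1 + ‖z‖) ^ 2 *
          (C * ‖Fφ‖ * (4 / η) / c ^ 3 * u ^ 4))) := by
          gcongr
      _ = _ := by ring
  have hiii : ∃ C : ℝ, ∀ z : ℂ, z.im < 0 → (|x0| + |D.x 0| + 3) ≤ ‖z‖ →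
      ‖ψ z‖ ≤ C * (1 + ‖z‖) ^ 2 / |z.im| := by
    obtain ⟨c, hc, hc2⟩ := hlow1 1 one_pos
    refine ⟨‖kqW hφ k‖ * ‖rw' φ‖ * (1 + C * ‖Fφ‖ / c ^ 3), ?_⟩
    intro z hz hzn
    have him : 0 < |z.im| := abs_pos.mpr hz.ne
    have hdist : ∀ i, (1 : ℝ) ≤ ‖z - (D.x i : ℂ)‖ := by
      intro i
      have h1 := D.x_near i
      have h2 : |D.x i| ≤ |D.x 0| + 1 := by
        calc |D.x i| = |D.x 0 + (D.x i - D.x 0)| := by ring_nf
          _ ≤ |D.x 0| + |D.x i - D.x 0| := abs_add_le _ _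
          _ ≤ _ := by linarith
      have h3 : ‖(D.x i : ℂ)‖ = |D.x i| := by
        rw [Complex.norm_real, Real.norm_eq_abs]
      have h4 := norm_sub_norm_le z (D.x i : ℂ)
      have h5 := abs_nonneg x0
      linarith
    have hlow : c ^ 3 ≤ ‖chiW φ z Fφ‖ * ‖1 + Complex.I * z‖ := by
      rw [hcube z hz.le (hneD z hz)]
      exact pow_le_pow_left₀ hc.le (hc2 z hz.le hdist) 3
    have h1 := H65.q_bound hφ (annW hφ k) hC hk (fun z hz x => hCb (annW hφ k) Fφ hk z hz x) hz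
      (hunit z (hne z hz.ne)) (pow_pos hc 3) hlow
    have h2 : ‖ψ z‖ ≤ ‖kqW hφ k‖ * ‖H65.qW hφ (annW hφ k) z‖ := by
      rw [hψz]
      exact (kqW hφ k).le_opNorm _
    have h6 : |z.im| ≤ (1 + ‖z‖) ^ 2 := by
      have := Complex.abs_im_le_norm z
      have h7 := norm_nonneg z
      nlinarith
    have h7 : (1 : ℝ) ≤ (1 + ‖z‖) ^ 2 / |z.im| := by
      rw [le_div_iff₀ him, one_mul]
      exact h6
    calc ‖ψ z‖ ≤ ‖kqW hφ k‖ * ‖H65.qW hφ (annW hφ k) z‖ := h2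
      _ ≤ ‖kqW hφ k‖ * (‖rw' φ‖ * (1 + (1 + ‖z‖) ^ 2 * (C * ‖Fφ‖) / (c ^ 3 * |z.im|))) :=
          mul_le_mul_of_nonneg_left h1 hkq
      _ ≤ ‖kqW hφ k‖ * (‖rw' φ‖ * ((1 + ‖z‖) ^ 2 / |z.im| +
          (1 + ‖z‖) ^ 2 * (C * ‖Fφ‖) / (c ^ 3 * |z.im|))) := by
          gcongr
      _ = _ := by
          field_simp
  obtain ⟨c, hc⟩ := hCA ψ x0 M (|x0| + |D.x 0| + 3) 2 hdiff hM hi2 hii hiii
  refine ⟨-(Complex.I * c), ?_⟩
  choose E hE using fun m : ℕ => Pool.Agent.WK2.Cst.exists_E hφ m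
  apply H65.ext_exp hφ hE
  intro n
  have hzim : 0 < (Complex.I * ((n : ℂ) + 1)).im := by
    simp only [Complex.mul_im, Complex.I_re, Complex.add_im, Complex.natCast_im,
      Complex.one_im, Complex.I_im, Complex.add_re, Complex.natCast_re, Complex.one_re]
    have : (0 : ℝ) ≤ (n : ℝ) := Nat.cast_nonneg n
    linarith
  obtain ⟨z, hz⟩ : ∃ z : ℂ, z = Complex.I * ((n : ℂ) + 1) := ⟨_, rfl⟩
  rw [← hz] at hzim
  have hIz : -Complex.I * z = (n : ℂ) + 1 := by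
    rw [hz, ← mul_assoc]
    have : -Complex.I * Complex.I = 1 := by
      rw [neg_mul, Complex.I_mul_I, neg_neg]
    rw [this, one_mul]
  have hzx : z ≠ (x0 : ℂ) := hne z hzim.ne'
  have hrE : ∀ᵐ t : ℝ, 0 < t →
      ((dv φ (E n) : X) : ℝ → ℂ) t = Complex.exp (-(-Complex.I * z * (t : ℂ))) := by
    rw [hIz]
    exact hE n
  have hre : 0 < (-Complex.I * z).re := by simpa using hzim
  rw [← hpos z hzim (E n) hrE, hc z hzx, smul_apply, smul_eq_mul,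
    H65.chiW_exp hre hrE (w := (x0 : ℂ)) (by simp)]
  have n1 : z - (x0 : ℂ) ≠ 0 := sub_ne_zero.mpr hzx
  have n2 : -Complex.I * z + Complex.I * (x0 : ℂ) ≠ 0 := by
    have e : -Complex.I * z + Complex.I * (x0 : ℂ) = -Complex.I * (z - x0) := by ring
    rw [e]
    exact mul_ne_zero (neg_ne_zero.mpr Complex.I_ne_zero) n1
  rw [mul_one_div, div_eq_div_iff n1 n2]
  ring

end

end Pool.Agent.WK5
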