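import Pool.Agent.WK5.Stmts

/-!
# MP_7d2497_an, squad WK5, row WTH (helper9): thin data with a weighted element
-/

set_option autoImplicit false

namespace Pool.Agent.WK5

open MeasureTheory Filter Topology Complex
open Pool.Agent.H78E Pool.Agent.WKS

noncomputable section

namespace WTH9

/-- Closeness in a product ring. -/
theorem fclose_prod {R S : Type} [NormedRing R] [NormedRing S] {A : ℝ → ℝ → ℝ → R}
    {B : ℝ → ℝ → ℝ → S} (hA : FClose A) (hB : FClose B) :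
    FClose (fun x m e => (A x m e, B x m e)) := by
  intro x m e hm he
  obtain ⟨a1, a2⟩ := hA x m e hm he
  obtain ⟨b1, b2⟩ := hB x m e hm he
  refine ⟨fun η hη => ?_, fun η hη => ?_⟩
  · obtain ⟨e1, he1, h1⟩ := a1 η hη
    obtain ⟨e2, he2, h2⟩ := b1 η hη
    refine ⟨min e1 e2, lt_min he1 he2, fun e' he' hle => ?_⟩
    rw [Prod.mk_mul_mk, Prod.mk_sub_mk, Prod.norm_mk]
    exact max_le (h1 e' he' (hle.trans (min_le_left _ _)))
      (h2 e' he' (hle.trans (min_le_right _ _)))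
  · obtain ⟨e1, he1, h1⟩ := a2 η hη
    obtain ⟨e2, he2, h2⟩ := b2 η hη
    refine ⟨min e1 e2, lt_min he1 he2, fun x' hle => ?_⟩
    rw [Prod.mk_sub_mk, Prod.norm_mk]
    exact max_le (h1 x' (hle.trans (min_le_left _ _))) (h2 x' (hle.trans (min_le_right _ _)))

theorem Mo_fst {R S : Type} [NormedRing R] [NormedRing S] (A : ℝ → ℝ → ℝ → R)
    (B : ℝ → ℝ → ℝ → S) (n : ℕ) (x e : ℕ → ℝ) :
    (Mo (fun x m e => (A x m e, B x m e)) n x e).1 = Mo A n x e := by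
  unfold Mo
  generalize Pool.Agent.H78E.H34.lev n = L
  induction L with
  | nil => simp
  | cons i L ih =>
    rw [List.map_cons, List.prod_cons, Prod.fst_mul, ih, List.map_cons, List.prod_cons]

theorem Mo_snd {R S : Type} [NormedRing R] [NormedRing S] (A : ℝ → ℝ → ℝ → R)
    (B : ℝ → ℝ → ℝ → S) (n : ℕ) (x e : ℕ → ℝ) :
    (Mo (fun x m e => (A x m e, B x m e)) n x e).2 = Mo B n x e := by
  unfold Mo
  generalize Pool.Agent.H78E.H34.lev n = L
  induction L with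
  | nil => simp
  | cons i L ih =>
    rw [List.map_cons, List.prod_cons, Prod.snd_mul, ih, List.map_cons, List.prod_cons]

/-- The multiplier of a product of operators. -/
theorem mult_prod (χ : Y →L[ℂ] ℂ) (A : ℕ → (Y →L[ℂ] Y)) (μ : ℕ → ℂ) (F : Y) : ∀ L : List ℕ,
    (∀ i ∈ L, ∀ G : Y, χ (A i G) = μ i * χ G) →
      χ ((L.map A).prod F) = (L.map μ).prod * χ F := by
  intro L
  induction L with
  | nil =>
    intro _
    simp
  | cons i L ih =>
    intro hL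
    have e : (A i * (L.map A).prod) F = A i ((L.map A).prod F) := rfl
    rw [List.map_cons, List.prod_cons, List.map_cons, List.prod_cons, e,
      hL i List.mem_cons_self, ih fun j hj => hL j (List.mem_cons_of_mem _ hj)]
    ring

end WTH9

open WTH9

/-- WTH -/
theorem wth (hT : ThgStmt) (hF : FcwStmt) (hG : GnfStmt) (hA2 : FactStmt) : WthStmt := by
  intro K P hne hK hP
  obtain ⟨A2, hA2⟩ := hA2
  obtain ⟨A6, h6c, h6⟩ := hF
  obtain ⟨T⟩ := hT ((Y →L[ℂ] Y) × (Y →L[ℂ] Y)) (fun x m e => (A2 x m e, A6 x m e))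
    (fclose_prod (fun x m e hm he => ⟨(hA2 x m e hm he).2.2.1, (hA2 x m e hm he).2.2.2⟩) h6c)
    K P hne hK hP
  have hl1 : Tendsto (fun n => Mo A2 n T.x T.e rr) atTop (𝓝 (T.M.1 rr)) := by
    have h1 := (continuous_fst.tendsto T.M).comp T.lim
    have h2 : Tendsto (fun n => Mo A2 n T.x T.e) atTop (𝓝 T.M.1) := by
      refine h1.congr fun n => ?_
      exact Mo_fst A2 A6 n T.x T.e
    exact ((ContinuousLinearMap.apply ℂ Y (rr : Y)).continuous.tendsto T.M.1).comp h2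
  have hl2 : Tendsto (fun n => Mo A6 n T.x T.e (rw' w1)) atTop (𝓝 (T.M.2 (rw' w1))) := by
    have h1 := (continuous_snd.tendsto T.M).comp T.lim
    have h2 : Tendsto (fun n => Mo A6 n T.x T.e) atTop (𝓝 T.M.2) := by
      refine h1.congr fun n => ?_
      exact Mo_snd A2 A6 n T.x T.e
    exact ((ContinuousLinearMap.apply ℂ Y (rw' w1 : Y)).continuous.tendsto T.M.2).comp h2
  have hm : ∀ n : ℕ, (0 : ℝ) < (1 / 2) ^ n := fun n => by positivity
  have hc2 : ∀ (n : ℕ) (z : ℂ), z.im ≤ 0 → (∀ i < 2 ^ n, z ≠ (T.x i : ℂ)) →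
      chi z (Mo A2 n T.x T.e rr) =
        (∏ i ∈ Finset.range (2 ^ n), mult (T.x i) ((1 / 2 : ℝ) ^ n) (T.e i) z) * chi z rr := by
    intro n z hz hzi
    rw [← Pool.Agent.H78E.H34.lev_prod]
    exact mult_prod (chi z) (fun i => A2 (T.x i) ((1 / 2 : ℝ) ^ n) (T.e i)) _ rr _
      fun i hi G => (hA2 (T.x i) _ (T.e i) (hm n) (T.e_pos i)).2.1 z hz
        (hzi i (Pool.Agent.H78E.H34.mem_lev hi)) G
  have hc6 : ∀ (n : ℕ) (z : ℂ), z.im ≤ 0 → (∀ i < 2 ^ n, z ≠ (T.x i : ℂ)) →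
      chiW w1 z (Mo A6 n T.x T.e (rw' w1)) =
        (∏ i ∈ Finset.range (2 ^ n), mult (T.x i) ((1 / 2 : ℝ) ^ n) (T.e i) z) ^ 3 *
          chiW w1 z (rw' w1) := by
    intro n z hz hzi
    rw [← Finset.prod_pow, ← Pool.Agent.H78E.H34.lev_prod]
    exact mult_prod (chiW w1 z) (fun i => A6 (T.x i) ((1 / 2 : ℝ) ^ n) (T.e i)) _ (rw' w1) _
      fun i hi G => h6 (T.x i) _ (T.e i) (hm n) (T.e_pos i) z hz
        (hzi i (Pool.Agent.H78E.H34.mem_lev hi)) G
  obtain ⟨D, hDx, hDf⟩ : ∃ D : ThinData K P, D.x = T.x ∧ D.f = T.M.1 rr :=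
    ⟨⟨T.x, T.e, T.y, T.M.1 rr, fun n => Mo A2 n T.x T.e rr, T.x_mem, T.x_near, T.e_pos, T.e_sum,
      T.e_le, T.sep, T.y_pos, T.y_le, T.P_le, T.y_card, hl1, hc2⟩, rfl, rfl⟩
  have key : ∀ z : ℂ, z.im ≤ 0 → (∀ i, z ≠ (D.x i : ℂ)) →
      chi z (dv w1 (T.M.2 (rw' w1))) = chi z D.f ^ 3 * (1 + Complex.I * z) ^ 2 := by
    intro z hz hzi
    rw [hDx] at hzi
    rw [hDf]
    have h1 : Tendsto (fun n => chiW w1 z (Mo A6 n T.x T.e (rw' w1))) atTop
        (𝓝 (chiW w1 z (T.M.2 (rw' w1)))) := ((chiW w1 z).continuous.tendsto _).comp hl2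
    have h2 : Tendsto (fun n => chi z (Mo A2 n T.x T.e rr) ^ 3 * (1 + Complex.I * z) ^ 2) atTop
        (𝓝 (chi z (T.M.1 rr) ^ 3 * (1 + Complex.I * z) ^ 2)) :=
      ((((chi z).continuous.tendsto _).comp hl1).pow 3).mul_const _
    refine tendsto_nhds_unique h1 (h2.congr fun n => ?_)
    rw [hc2 n z hz fun i _ => hzi i, hc6 n z hz fun i _ => hzi i, chi_rr hz,
      chiW_rw isWeight_w1 hz]
    have h3 : 1 + Complex.I * z ≠ 0 := one_add_ne hz
    field_simp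
  refine ⟨D, T.M.2 (rw' w1), hG D.f _ fun z hz => ?_, key⟩
  refine key z hz.le fun i hi => ?_
  rw [hi] at hz
  simp at hz

end

end Pool.Agent.WK5
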