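import Pool.Agent.WK5.Fin
import Pool.Agent.WK5.Smw
import Pool.Agent.WK5.Wth
import Pool.Agent.WK5.Thg
import Pool.Agent.WK5.Gnf
import Pool.Agent.WK5.Grw
import Pool.Agent.WK5.Ca3
import Pool.Agent.WK5.Lg4
import Pool.Agent.Helper15_WK5.LBW
import Pool.Agent.WK7.Fc2
import Pool.Agent.Helper34_E.Fact
import Pool.Agent.Helper98_E.Lowb

/-!
# MP_7d2497_an, squad WK5: the theorem on perfect sets, unconditional
-/

set_option autoImplicit false

namespace Pool.Agent.WK5

open Pool.Agent.H78E

/-- If a set has property (E) for a quasi-concave weight with `liminf log φ(-t) / √t = 0`, then all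
its closed subsets are countable. -/
theorem x5main : X5Stmt :=
  x5 (wth thg (Pool.Agent.WK7.fcw0 lg4) gnf H34.fact) (fbw (smw ca3 H15.lbw H98.lowb)) grw

end Pool.Agent.WK5
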