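import Pool.Agent.WK5.Defs

/-!
# MP_7d2497_an, squad WK5: statements, with proofs in words

THEOREM X5. Let `φ` be a weight which is quasi-concave on the half-line and not of linear growth
there, and suppose `liminf log φ(-t) / sqrt t = 0` (`t → ∞`). If `L` has (E), then every closed
subset of the line contained in `L` is countable.

Plan. The thin Cantor construction of `Helper34_E` is done at the same time for the operators `A2`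
(multiplier `mult`, on `Y`) and `A6` (multiplier `mult ^ 3`, on the space with weight `1 + |t|`).
This gives `D : ThinData K P` and `F` in the weighted space with transform
`(chi z D.f)^3 (1+iz)^2`; `F` is in `L^1_φ` as `φ t ≤ C (1+t)` for `t ≥ 0`, and it is in the closed
ideal `gen D.f`. Now every functional `k` on `Y` vanishing on `gen D.f` is a bounded function, its
spectrum in the sense of `φ` is contained in `K` and simple (SMW, because `F` annihilates it); by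
(E) it has an extension, and the rest of the proof of `neg2a` applies without change.
-/

set_option autoImplicit false

namespace Pool.Agent.WK5

open MeasureTheory Filter Topology Complex
open Pool.Agent.H78E Pool.Agent.WKS
open Pool.Agent.WK3 (QC Lin)

noncomputable section

/-- LG4. Variation of LAG (`Helper72_E/Lag.lean`, power 2).

Proof. `f v = (1-v)^4 E v`, `E v = exp(-c v/(1-v))`, `E' = -c (1-v)^(-2) E`. So
`f'' = (12 (1-v)^2 + 6 c (1-v) + c^2) E`, and `|E| ≤ exp(c/2)` in the disc as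
`Re (v/(1-v)) = Re (1/(1-v)) - 1 ≥ -1/2`: `f''` is bounded in the disc. Hence (Parseval)
`∑ n^4 |a n|^2 < ∞`, and `∑ n |a n| ≤ (∑ n^4 |a n|^2)^(1/2) (∑ n^(-2))^(1/2) < ∞`. (Or: the part
of `Lag.lean` which derives `∑ |b n| < ∞` from a bounded derivative, applied to `f'`.) The series
converges to a continuous function on the closed disc, equal to `f` inside, and `f` is continuous
at every point `v ≠ 1` with `|v| = 1`. -/
def Lg4Stmt : Prop :=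
  ∀ c : ℝ, 0 < c → ∃ a : ℕ → ℂ, Summable (fun n : ℕ => ((n : ℝ) + 1) * ‖a n‖) ∧
    ∀ v : ℂ, ‖v‖ ≤ 1 → v ≠ 1 →
      ∑' n, a n * v ^ n = (1 - v) ^ 4 * Complex.exp (-((c : ℂ) * v / (1 - v)))

/-- VPW. Power bound for the contraction in the weighted space.

Proof. Let `N F = ‖dv w1 F‖ ≤ ‖F‖`. (a) `dv w1 (YW w1 s F) = YT s (dv w1 F)` (`dv_YW`), so
`‖dv w1 (VW x e F)‖ ≤ e ∫ exp(-es) N F ds = N F` (`GSemi.En_apply`, integral and `dv w1` commute).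
(b) `‖YW w1 s F‖ ≤ ‖F‖ + s N F` for `s ≥ 0`: by `YW_coe`, `YW w1 s F t = w1 t * (dv w1 F) (t-s)`
a.e., `w1 t ≤ w1 (t-s) + s` and `w1 (t-s) * ‖(dv w1 F) (t-s)‖ = ‖F (t-s)‖` (`coe_eq_mul_dv`).
(c) So `‖VW x e F‖ ≤ e ∫_0^∞ exp(-es) (‖F‖ + s N F) ds = ‖F‖ + (1/e) N F`. Induction:
`N (V^n F) ≤ N F`, `‖V^n F‖ ≤ ‖F‖ + (n/e) N F ≤ (1 + n/e) ‖F‖`. -/
def VpwStmt : Prop := ∀ x e : ℝ, 0 < e → ∀ n : ℕ, ‖VW x e ^ n‖ ≤ 1 + (n : ℝ) / e

/-- FCW. The factors on the space with weight `1 + |t|` (uses LG4, VPW; compare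
`Helper34_E/Fact.lean`).

Proof. Let `V = VW x e`, `c = 3m/e`, `a` from LG4 for `c`, `S4 = ∑ a n V^n` (converges, as
`‖V^n‖ ≤ 1 + n/e ≤ C (n+1)`), `A x m e = S4 (1-V)^2`. For `Im z ≤ 0`, `z ≠ x`, `w = i(z-x)`:
`chiW w1 z (V F) = v chiW w1 z F`, `v = e/(e+w)`, `|v| ≤ 1`, `1-v = w/(e+w) ≠ 0`, `v/(1-v) = e/w`, so
`A x m e` has the multiplier `(1-v)^6 exp(-c v/(1-v)) = (w/(e+w))^6 exp(-3m/w) = mult x m e z ^ 3`.
All operators here commute (functions of `En`, resolvent identity `GSemi.resid`).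

Closeness 1. Put `M = A x m e`, `V' = VW x e'`, `e' ≤ e/2`. Comparing transforms (`lapuW`):
`A x (m/2) e * A x (m/2) e' = M (1-V')^6`. Resolvent identity: `e (1-V) V' = e' V (1-V')`. With
`M1 = (1/e) V S4 (1-V)`, `M2 = (1/e^2) V^2 S4`: `M V' = e' M1 (1-V')`, `M1 V' = e' M2 (1-V')`. Now
`1 - (1-X)^6 = X q(X)` and `(1-X) q(X) = 6 + X r(X)` with integer polynomials (`deg q = 5`,
`deg r = 5`), so `M (1 - (1-V')^6) = M V' q(V') = e' M1 (1-V') q(V') = 6 e' M1 + e' M1 V' r(V') =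
6 e' M1 + e'^2 M2 (1-V') r(V')`, and `‖(1-V') r(V')‖ ≤ C (1 + 6/e')` by VPW. So the norm is at most
`6 e' ‖M1‖ + C e'^2 (1 + 6/e') ‖M2‖ → 0` (`e' → 0`).

Closeness 2. `V' = VW x' e`: `V - V' = -(i(x'-x)/e) V V'` (up to sign), so
`t = ‖V - V'‖ ≤ (|x'-x|/e) (1+1/e)^2`, `‖V^n - V'^n‖ ≤ min (2 (1+n/e)) (n (1+n/e)^2 t)` and
`∑ |a n| min (2 (1+n/e)) (n (1+n/e)^2 t) → 0` for `t → 0` by dominated convergence (as `Th_small` in
`Fact.lean`). -/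
def FcwStmt : Prop :=
  ∃ A : ℝ → ℝ → ℝ → (Y →L[ℂ] Y), FClose A ∧ ∀ x m e : ℝ, 0 < m → 0 < e →
    ∀ z : ℂ, z.im ≤ 0 → z ≠ (x : ℂ) → ∀ F : Y,
      chiW w1 z (A x m e F) = mult x m e z ^ 3 * chiW w1 z F

/-- THG. The thin construction in a normed ring.

Proof. `Helper34_E/Thin.lean` (`prod_close`, `lev` and its lemmas, `exists_distinct`, `cluster`,
`card_mod` can be used from there; `Mop`, `step`, `thin_core` are to be copied with a normed ring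
`R` in place of the operators on `Y`: only `norm_mul_le` and the two closeness properties are used)
and the choice of `y` in `Helper34_E/Thin2.lean`. `M` is the limit of the Cauchy sequence
`Mo A n x e` (`‖Mo (n+1) - Mo n‖ ≤ 2^(-n)`). -/
def ThgStmt : Prop :=
  ∀ (R : Type) [NormedRing R] [CompleteSpace R] (A : ℝ → ℝ → ℝ → R), FClose A →
    ∀ (K : Set ℝ) (P : ℝ → ℝ), K.Nonempty → Preperfect K →
    (∀ η y0 : ℝ, 0 < η → 0 < y0 → ∃ y : ℝ, 0 < y ∧ y ≤ y0 ∧ P y ≤ Real.exp (η / y)) →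
    Nonempty (ThinR A K P)

/-- GNF. Membership in the closed ideal generated by `f`.

Proof. Let `J = gen f`. For `Im z < 0`: `chi z (En 1 (En 1 g)) = (1+iz)^(-2) chi z g = (chi z f)^3 =
chi z (conv f (conv f f))` (`chi_En_one`, `chi_conv`), so `En 1 (En 1 g) = conv f (conv f f)` (`lapu`),
which is in `J.I` (`conv_mem_right`). Hence `J.S.En 1 (J.S.En 1 (J.qm g)) = 0` (`qm_En`). `En 1` is
injective for every contraction semigroup: `En 1 x = 0` gives `En b x = 0` for all `b > 0`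
(`resid`), but `b En b x → x` for `b → ∞`. So `J.qm g = 0`, `g ∈ J.I`. -/
def GnfStmt : Prop :=
  ∀ f g : Y, (∀ z : ℂ, z.im < 0 → chi z g = chi z f ^ 3 * (1 + Complex.I * z) ^ 2) →
    g ∈ (gen f).I

/-- WTH. The weighted thin element (uses THG, FCW, GNF; FACT: `H34.fact : FactStmt`).

Proof. `A2` from FACT, `A6` from FCW, `R = (Y →L[ℂ] Y) × (Y →L[ℂ] Y)`, `A x m e = (A2 x m e, A6 x m e)`
(`FClose A`: sup norm). THG gives `x, e, y`, `M = (M2, M6)`. `D`: `f = M2 rr`,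
`fn n = (Mo A2 n x e) rr` (`(Mo A n x e).1 = Mo A2 n x e`), `chi_fn` as at the end of `thin_core`.
`F = M6 (rw' w1)`: for `Im z ≤ 0`, `z ≠ x i`: `chiW w1 z (Mo A6 n x e (rw' w1)) = (∏ mult)^3 /
(1+iz) = (chi z (fn n))^3 (1+iz)^2`, and let `n → ∞`. `dv w1 F ∈ (gen D.f).I`: GNF. -/
def WthStmt : Prop :=
  ∀ (K : Set ℝ) (P : ℝ → ℝ), K.Nonempty → Preperfect K →
    (∀ η y0 : ℝ, 0 < η → 0 < y0 → ∃ y : ℝ, 0 < y ∧ y ≤ y0 ∧ P y ≤ Real.exp (η / y)) →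
    ∃ (D : ThinData K P) (F : Y), dv w1 F ∈ (gen D.f).I ∧
      ∀ z : ℂ, z.im ≤ 0 → (∀ i, z ≠ (D.x i : ℂ)) →
        chi z (dv w1 F) = chi z D.f ^ 3 * (1 + Complex.I * z) ^ 2

/-- CA3. As CA (`Helper92_E/Ca.lean`), with a weaker bound above the real line.

Proof. As in `Ca.lean` (`x0 = 0`): `E w = ψ (1/w)` is entire with `E 0 = 0` and of minimal
exponential type (`rem_entire`, `rhomb`); for `Im w < 0`:
`|E w| ≤ M (|w|^2/|Im w| + |w|^4/|Im w|^2)`. The Phragmén-Lindelöf argument of `growth` (now with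
`F ζ = E (iζ - i) / (ζ+1)^4`) gives `|E w| ≤ C (|w|+2)^4`; so `E` is a polynomial of degree at most
4 without constant term (`dslope` four times and Liouville). The third hypothesis says
`|E (-iY)| ≤ ε Y^2` for large `Y`, so the coefficients of `w^4, w^3, w^2` vanish: `E w = c w`. -/
def CA3Stmt : Prop :=
  ∀ (ψ : ℂ → ℂ) (x0 M ρ : ℝ) (N : ℕ),
    DifferentiableOn ℂ ψ {z : ℂ | z ≠ (x0 : ℂ)} →
    (∀ z : ℂ, 0 < z.im → ‖ψ z‖ ≤ M / z.im + M / z.im ^ 2) →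
    (∀ ε : ℝ, 0 < ε → ∃ δ : ℝ, 0 < δ ∧ ∀ y : ℝ, 0 < y → y < δ →
      ‖ψ ((x0 : ℂ) + Complex.I * (y : ℂ))‖ ≤ ε / y ^ 2) →
    (∀ η : ℝ, 0 < η → ∃ C : ℝ, ∀ z : ℂ, z.im < 0 →
      ‖ψ z‖ ≤ C * (1 + ‖z‖) ^ N * Real.exp (η / |z.im|)) →
    (∃ C : ℝ, ∀ z : ℂ, z.im < 0 → ρ ≤ ‖z‖ → ‖ψ z‖ ≤ C * (1 + ‖z‖) ^ N / |z.im|) →
    ∃ c : ℂ, ∀ z : ℂ, z ≠ (x0 : ℂ) → ψ z = c / (z - (x0 : ℂ))

/-- LBW. A priori bound for the resolvent in the weighted space (as LBD of `Helper78_E`).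

Proof. `S = J.S hφ`, `a = iz`, `Re a = |Im z| > 0`, `u = S.En 1 x`, `y = S.D z x = x - (1+iz) u`. As
in LBD: `T_s u = exp(-as) u - ∫_0^s exp(-a(s-r)) T_r y dr` for `s ≥ 0` (derivative of
`exp(as) T_s u`, `hasDerivAt_T_En`). `S.pi (dv φ f) = 0` (`pi_eq_zero`), so
`chiW φ z f • u = ∫ f(s) ∫_0^s exp(-a(s-r)) T_r y dr ds`, and `‖T_r y‖ ≤ φ r ‖y‖ ≤ C φ s ‖y‖` for
`0 < r ≤ s` (quasi-concave), `∫_0^s exp(-Re a (s-r)) dr ≤ 1/Re a`, `∫ φ(s) |f(s)| ds = ‖f‖`. -/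
def LbwStmt : Prop :=
  ∀ (φ : ℝ → ℝ) (hφ : IsWeight φ), QC φ → ∃ C : ℝ, 0 < C ∧
    ∀ (J : ISub φ) (f : Y), f ∈ J.I → ∀ z : ℂ, z.im < 0 → ∀ x : J.Q,
      ‖chiW φ z f‖ * |z.im| * ‖(J.S hφ).En 1 x‖ ≤ C * ‖f‖ * ‖(J.S hφ).D z x‖

/-- SMW. Functionals with one-point spectrum (uses CA3, LBW; LOWB: `Helper98_E`; compare
`Helper78_E/Simple.lean`).

Proof. `J = annW hφ k`, `S = J.S hφ`, `q z = Ring.inverse (S.D z) (J.qm (rw' φ))`,
`ψ z = kqW hφ k (q z)`: differentiable for `z ≠ x0` (`D_unit`; `q_differentiableAt` as in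
`Helper78_E/Res.lean`). For `Im z = y > 0`: `q z = J.qm G` with `dv φ G = ez (-z)` (as `q_pos`), so
`|ψ z| ≤ ‖k‖ ∫ φ(t) exp(-yt) dt`; `φ t ≤ C (1+t)` gives the first bound of CA3, and
`φ t ≤ ε t + C_ε` (`φ (t)/t → 0`: quasi-concave and not of linear growth) the second one. For
`Im z < 0`: `q z = J.qm (rw' φ) + (1+iz) S.En 1 (q z)` and LBW with `f = Fφ`:
`‖S.En 1 (q z)‖ ≤ C ‖Fφ‖ ‖rw' φ‖ / (|chiW φ z Fφ| |Im z|)`, where
`|chiW φ z Fφ| |1+iz| = (|chi z D.f| |1+iz|)^3` is bounded below by LOWB (`c^3 exp(-3η/|Im z|)`, and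
`c^3` far out): as in `q_bound_of_lower`, `simple_of`. CA3: `ψ z = c/(z - x0)`; for `Im z > 0` this
says `k G = c/(z-x0)`, `dv φ G = ez (-z)`; exponentials are dense (`densW`), and
`chiW φ x0 G = 1/(i(x0 - z))`, so `k = -i c chiW φ x0` (up to sign). -/
def SmwStmt : Prop :=
  ∀ (φ : ℝ → ℝ) (hφ : IsWeight φ), QC φ → ¬ Lin φ → ∀ (K : Set ℝ) (P : ℝ → ℝ)
    (D : ThinData K P) (Fφ : Y),
    (∀ z : ℂ, z.im ≤ 0 → (∀ i, z ≠ (D.x i : ℂ)) →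
      chiW φ z Fφ = chi z D.f ^ 3 * (1 + Complex.I * z) ^ 2) →
    ∀ k : Y →L[ℂ] ℂ, Fφ ∈ (annW hφ k).I → ∀ x0 : ℝ, (annW hφ k).hull ⊆ {(x0 : ℂ)} →
      ∃ c : ℂ, k = c • chiW φ (x0 : ℂ)

/-- GRW. Growth of the Laplace integral (`Helper18_E/Grow2.lean` with `φ t ≤ C (1+t)` in place of
`φ t ≤ C`).

Proof. The only change: `φ(-s) ≤ φ(-t) φ(t-s) ≤ φ(-t) C (1+t)` for `0 ≤ s ≤ t`, so `log C` is
replaced by `log (C (1+t))`, which is at most `c sqrt t` for large `t`. -/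
def GrwStmt : Prop :=
  ∀ φ : ℝ → ℝ, IsWeight φ → (∃ C : ℝ, ∀ t : ℝ, 0 ≤ t → φ t ≤ C * (1 + t)) →
    (∀ c : ℝ, 0 < c → ∀ T : ℝ, ∃ t : ℝ, T ≤ t ∧ Real.log (φ (-t)) < c * Real.sqrt t) →
    ∀ η y0 : ℝ, 0 < η → 0 < y0 → ∃ y : ℝ, 0 < y ∧ y ≤ y0 ∧
      ∫ t in Set.Ioi (0 : ℝ), φ (-t) * Real.exp (-(y * t)) ≤ Real.exp (η / y)

/-- FBW. The main estimate (helper7). -/
def FbwStmt : Prop :=
  ∀ φ : ℝ → ℝ, IsWeight φ → QC φ → ¬ Lin φ → ∀ (L K : Set ℝ) (P : ℝ → ℝ), PropertyE φ L →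
    K ⊆ L → IsClosed K → ∀ (D : ThinData K P) (F : Y), dv w1 F ∈ (gen D.f).I →
    (∀ z : ℂ, z.im ≤ 0 → (∀ i, z ≠ (D.x i : ℂ)) →
      chi z (dv w1 F) = chi z D.f ^ 3 * (1 + Complex.I * z) ^ 2) →
    ∀ κ : (gen D.f).Q →L[ℂ] ℂ, ∃ C : ℝ, ∀ z : ℂ, z.im < 0 → ‖κ ((gen D.f).q z)‖ ≤
      C * ∫ t in Set.Ioi (0 : ℝ), φ (-t) * Real.exp (-(|z.im| * t))

/-- X5. The theorem (helper7). -/
def X5Stmt : Prop :=
  ∀ φ : ℝ → ℝ, IsWeight φ → QC φ → ¬ Lin φ →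
    (∀ c : ℝ, 0 < c → ∀ T : ℝ, ∃ t : ℝ, T ≤ t ∧ Real.log (φ (-t)) < c * Real.sqrt t) →
    ∀ L : Set ℝ, PropertyE φ L → ∀ K ⊆ L, IsClosed K → K.Countable

end

end Pool.Agent.WK5
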