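import Pool.Agent.WK5.Stmts

/-!
# MP_7d2497_an, squad WK5, row VPW (helper56): power bound of the contraction in the weighted space
-/

set_option autoImplicit false

namespace Pool.Agent.WK5.VPW56

open MeasureTheory Filter Topology Complex
open Pool.Agent.H78E Pool.Agent.WKS

noncomputable section

theorem int_exp {e : ℝ} (he : 0 < e) :
    ∫ s in Set.Ioi (0 : ℝ), Real.exp (-(e * s)) = 1 / e := by
  have h := Real.integral_rpow_mul_exp_neg_mul_Ioi (a := 1) (r := e) one_pos he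
  simpa using h

theorem int_mul_exp {e : ℝ} (he : 0 < e) :
    ∫ s in Set.Ioi (0 : ℝ), s * Real.exp (-(e * s)) = 1 / e ^ 2 := by
  have h := Real.integral_rpow_mul_exp_neg_mul_Ioi (a := 2) (r := e) two_pos he
  have h1 : ∫ s in Set.Ioi (0 : ℝ), s ^ ((2 : ℝ) - 1) * Real.exp (-(e * s)) =
      ∫ s in Set.Ioi (0 : ℝ), s * Real.exp (-(e * s)) := by
    apply setIntegral_congr_fun measurableSet_Ioi
    intro s _
    simp only
    rw [show (2 : ℝ) - 1 = 1 by norm_num, Real.rpow_one]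
  rw [← h1, h]
  have h2 : Real.Gamma 2 = 1 := Real.Gamma_two
  rw [h2, mul_one, Real.rpow_two]
  rw [one_div, one_div, inv_pow]

theorem intble_exp {e : ℝ} (he : 0 < e) :
    IntegrableOn (fun s : ℝ => Real.exp (-(e * s))) (Set.Ioi 0) volume := by
  by_contra h
  have h1 := integral_undef h
  rw [int_exp he] at h1
  have : 0 < 1 / e := by positivity
  linarith

theorem intble_mul_exp {e : ℝ} (he : 0 < e) :
    IntegrableOn (fun s : ℝ => s * Real.exp (-(e * s))) (Set.Ioi 0) volume := by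
  by_contra h
  have h1 := integral_undef h
  rw [int_mul_exp he] at h1
  have : 0 < 1 / e ^ 2 := by positivity
  linarith

theorem YW_w1_norm {s : ℝ} (hs : 0 ≤ s) (F : Y) :
    ‖YW w1 s F‖ ≤ ‖F‖ + s * ‖dv w1 F‖ := by
  have hF : Integrable (fun t : ℝ => ‖((F : X) : ℝ → ℂ) t‖) volume :=
    (L1.integrable_coeFn (F : X)).norm
  have hG : Integrable (fun t : ℝ => ‖((dv w1 F : X) : ℝ → ℂ) t‖) volume :=
    (L1.integrable_coeFn (dv w1 F : X)).norm
  have hF' : Integrable (fun t : ℝ => ‖((F : X) : ℝ → ℂ) (t - s)‖) volume := hF.comp_sub_right s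
  have hG' : Integrable (fun t : ℝ => s * ‖((dv w1 F : X) : ℝ → ℂ) (t - s)‖) volume :=
    (hG.comp_sub_right s).const_mul s
  have e1 : ‖YW w1 s F‖ = ‖((YW w1 s F : Y) : X)‖ := rfl
  have e2 : ‖F‖ = ∫ t : ℝ, ‖((F : X) : ℝ → ℂ) t‖ := by
    have : ‖F‖ = ‖(F : X)‖ := rfl
    rw [this, L1.norm_eq_integral_norm]
  have e3 : ‖dv w1 F‖ = ∫ t : ℝ, ‖((dv w1 F : X) : ℝ → ℂ) t‖ := by
    have : ‖dv w1 F‖ = ‖(dv w1 F : X)‖ := rfl
    rw [this, L1.norm_eq_integral_norm]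
  rw [e1, L1.norm_eq_integral_norm]
  have hle : ∫ t : ℝ, ‖((YW w1 s F : X) : ℝ → ℂ) t‖ ≤
      ∫ t : ℝ, (‖((F : X) : ℝ → ℂ) (t - s)‖ + s * ‖((dv w1 F : X) : ℝ → ℂ) (t - s)‖) := by
    refine integral_mono_ae (L1.integrable_coeFn (YW w1 s F : X)).norm (hF'.add hG') ?_
    filter_upwards [YW_coe isWeight_w1 hs F, ae_shift s (coe_eq_mul_dv isWeight_w1 F)] with t h1 h2
    rw [h1, h2, norm_mul, norm_mul, ← add_mul]
    refine mul_le_mul_of_nonneg_right ?_ (norm_nonneg _)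
    rw [Complex.norm_real, Complex.norm_real,
      Real.norm_of_nonneg (one_le_max_zero isWeight_w1 _).le,
      Real.norm_of_nonneg (one_le_max_zero isWeight_w1 _).le]
    unfold w1
    have h3 : |t| ≤ |t - s| + |s| := by
      have := abs_add_le (t - s) s
      rwa [sub_add_cancel] at this
    rw [abs_of_nonneg hs] at h3
    linarith
  refine hle.trans (le_of_eq ?_)
  rw [integral_add hF' hG', integral_const_mul,
    integral_sub_right_eq_self (fun t : ℝ => ‖((F : X) : ℝ → ℂ) t‖) s,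
    integral_sub_right_eq_self (fun t : ℝ => ‖((dv w1 F : X) : ℝ → ℂ) t‖) s, ← e2, ← e3]

theorem YT_norm {s : ℝ} (hs : 0 ≤ s) (f : Y) : ‖YT s f‖ = ‖f‖ := by
  have e1 : ‖YT s f‖ = ‖((YT s f : Y) : X)‖ := rfl
  rw [e1, YT_coe hs, LinearIsometry.norm_map]
  rfl

theorem re_a (x : ℝ) (e : ℝ) : ((e : ℂ) - Complex.I * (x : ℂ)).re = e := by
  simp

theorem norm_exp_a (x e s : ℝ) :
    ‖Complex.exp (-(((e : ℂ) - Complex.I * (x : ℂ)) * (s : ℂ)))‖ = Real.exp (-(e * s)) := by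
  rw [Complex.norm_exp]
  congr 1
  simp

theorem VW_apply (x : ℝ) {e : ℝ} (he : 0 < e) (F : Y) :
    VW x e F = (e : ℂ) • ∫ s in Set.Ioi (0 : ℝ),
      Complex.exp (-(((e : ℂ) - Complex.I * (x : ℂ)) * (s : ℂ))) • YW w1 s F := by
  unfold VW
  rw [smul_apply, GSemi.En_apply _ isWeight_w1 (by rw [re_a]; exact he)]
  rfl

theorem VW_norm (x : ℝ) {e : ℝ} (he : 0 < e) (F : Y) :
    ‖VW x e F‖ ≤ ‖F‖ + (1 / e) * ‖dv w1 F‖ := by
  rw [VW_apply x he, norm_smul, Complex.norm_real, Real.norm_of_nonneg he.le]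
  have hg : IntegrableOn (fun s : ℝ => Real.exp (-(e * s)) * ‖F‖ +
      s * Real.exp (-(e * s)) * ‖dv w1 F‖) (Set.Ioi 0) volume :=
    ((intble_exp he).mul_const _).add ((intble_mul_exp he).mul_const _)
  have h1 : ‖∫ s in Set.Ioi (0 : ℝ),
      Complex.exp (-(((e : ℂ) - Complex.I * (x : ℂ)) * (s : ℂ))) • YW w1 s F‖ ≤
      ∫ s in Set.Ioi (0 : ℝ), (Real.exp (-(e * s)) * ‖F‖ +
        s * Real.exp (-(e * s)) * ‖dv w1 F‖) := by
    refine norm_integral_le_of_norm_le hg ?_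
    filter_upwards [ae_restrict_mem measurableSet_Ioi] with s hs
    have hs0 : (0 : ℝ) ≤ s := le_of_lt hs
    rw [norm_smul, norm_exp_a]
    have h2 := mul_le_mul_of_nonneg_left (YW_w1_norm hs0 F) (Real.exp_pos (-(e * s))).le
    refine h2.trans (le_of_eq ?_)
    ring
  have h3 : ∫ s in Set.Ioi (0 : ℝ), (Real.exp (-(e * s)) * ‖F‖ +
        s * Real.exp (-(e * s)) * ‖dv w1 F‖) = 1 / e * ‖F‖ + 1 / e ^ 2 * ‖dv w1 F‖ := by
    rw [integral_add ((intble_exp he).mul_const _) ((intble_mul_exp he).mul_const _),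
      integral_mul_const, integral_mul_const, int_exp he, int_mul_exp he]
  rw [h3] at h1
  refine (mul_le_mul_of_nonneg_left h1 he.le).trans (le_of_eq ?_)
  field_simp

theorem dv_VW_norm (x : ℝ) {e : ℝ} (he : 0 < e) (F : Y) :
    ‖dv w1 (VW x e F)‖ ≤ ‖dv w1 F‖ := by
  have hre : 0 < ((e : ℂ) - Complex.I * (x : ℂ)).re := by
    rw [re_a]
    exact he
  have hi : IntegrableOn (fun s : ℝ =>
      Complex.exp (-(((e : ℂ) - Complex.I * (x : ℂ)) * (s : ℂ))) • YW w1 s F)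
      (Set.Ioi 0) volume :=
    (WS isWeight_w1).cont_mul (GI.exp isWeight_w1 hre) F
  rw [VW_apply x he, map_smul, norm_smul, Complex.norm_real, Real.norm_of_nonneg he.le,
    ← ContinuousLinearMap.integral_comp_comm _ hi]
  have hg : IntegrableOn (fun s : ℝ => Real.exp (-(e * s)) * ‖dv w1 F‖) (Set.Ioi 0) volume :=
    (intble_exp he).mul_const _
  have h1 : ‖∫ s in Set.Ioi (0 : ℝ),
      dv w1 (Complex.exp (-(((e : ℂ) - Complex.I * (x : ℂ)) * (s : ℂ))) • YW w1 s F)‖ ≤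
      ∫ s in Set.Ioi (0 : ℝ), Real.exp (-(e * s)) * ‖dv w1 F‖ := by
    refine norm_integral_le_of_norm_le hg ?_
    filter_upwards [ae_restrict_mem measurableSet_Ioi] with s hs
    have hs0 : (0 : ℝ) ≤ s := le_of_lt hs
    rw [map_smul, norm_smul, norm_exp_a, dv_YW isWeight_w1 hs0, YT_norm hs0]
  rw [integral_mul_const, int_exp he] at h1
  refine (mul_le_mul_of_nonneg_left h1 he.le).trans (le_of_eq ?_)
  field_simp

theorem pow_bound (x : ℝ) {e : ℝ} (he : 0 < e) (F : Y) : ∀ n : ℕ,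
    ‖dv w1 ((VW x e ^ n) F)‖ ≤ ‖dv w1 F‖ ∧
      ‖(VW x e ^ n) F‖ ≤ ‖F‖ + (n : ℝ) / e * ‖dv w1 F‖
  | 0 => by
    rw [pow_zero]
    constructor
    · exact le_of_eq rfl
    · simp
  | n + 1 => by
    obtain ⟨h1, h2⟩ := pow_bound x he F n
    have e1 : (VW x e ^ (n + 1)) F = VW x e ((VW x e ^ n) F) := by
      rw [pow_succ']
      rfl
    rw [e1]
    refine ⟨(dv_VW_norm x he _).trans h1, (VW_norm x he _).trans ?_⟩
    have h3 : 1 / e * ‖dv w1 ((VW x e ^ n) F)‖ ≤ 1 / e * ‖dv w1 F‖ :=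
      mul_le_mul_of_nonneg_left h1 (by positivity)
    have h4 : ((n + 1 : ℕ) : ℝ) / e * ‖dv w1 F‖ = (n : ℝ) / e * ‖dv w1 F‖ + 1 / e * ‖dv w1 F‖ := by
      push_cast
      ring
    rw [h4]
    linarith

end

end Pool.Agent.WK5.VPW56

namespace Pool.Agent.WK5

open Pool.Agent.H78E Pool.Agent.WKS

/-- ROW VPW. -/
theorem vpw : VpwStmt := by
  intro x e he n
  refine ContinuousLinearMap.opNorm_le_bound _ (by positivity) fun F => ?_
  have h1 := (VPW56.pow_bound x he F n).2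
  have h2 := dv_norm isWeight_w1 F
  have h3 : (n : ℝ) / e * ‖dv w1 F‖ ≤ (n : ℝ) / e * ‖F‖ :=
    mul_le_mul_of_nonneg_left h2 (by positivity)
  rw [add_mul, one_mul]
  linarith

end Pool.Agent.WK5
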